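import Pool.Agent.R279.PC.Limit

/-!
# The trigonometric polynomial and the first integral
-/

namespace Pool.Agent.R279.PC

open Real Set MeasureTheory Filter Topology

variable {H : ℕ → ℝ → ℝ} {Φ P Q R : ℝ → ℝ → ℝ}

/-- The first integral. -/
noncomputable def ell (H : ℕ → ℝ → ℝ) (x y : ℝ) : ℝ :=
  H 0 x * ct (y - x) ^ 2 + H 1 x * ct (y - x) + (H 0 x + H 2 x) / 3

theorem der_cosk (k x : ℝ) : HasDerivAt (fun x => cos (k * x)) (-sin (k * x) * k) x := by
  have h : HasDerivAt (fun x : ℝ => k * x) k x := by simpa using (hasDerivAt_id x).const_mul k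
  exact h.cos

theorem der_sink (k x : ℝ) : HasDerivAt (fun x => sin (k * x)) (cos (k * x) * k) x := by
  have h : HasDerivAt (fun x : ℝ => k * x) k x := by simpa using (hasDerivAt_id x).const_mul k
  exact h.sin

theorem harmonic {u u' : ℝ → ℝ} {k : ℝ} (hk : k ≠ 0) (h1 : ∀ x, HasDerivAt u (u' x) x)
    (h2 : ∀ x, HasDerivAt u' (-(k ^ 2 * u x)) x) (x : ℝ) :
    u x = u 0 * cos (k * x) + u' 0 / k * sin (k * x) := by
  have hc := der_cosk k
  have hs := der_sink k
  have e1 : ∀ x, HasDerivAt (fun x => k * u x * cos (k * x) - u' x * sin (k * x)) 0 x := by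
    intro x
    refine ((((h1 x).const_mul k).mul (hc x)).sub ((h2 x).mul (hs x))).congr_deriv ?_
    ring
  have e2 : ∀ x, HasDerivAt (fun x => k * u x * sin (k * x) + u' x * cos (k * x)) 0 x := by
    intro x
    refine ((((h1 x).const_mul k).mul (hs x)).add ((h2 x).mul (hc x))).congr_deriv ?_
    ring
  have c1 := is_const_of_deriv_eq_zero (fun x => (e1 x).differentiableAt)
    (fun x => (e1 x).deriv) x 0
  have c2 := is_const_of_deriv_eq_zero (fun x => (e2 x).differentiableAt)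
    (fun x => (e2 x).deriv) x 0
  simp only [mul_zero, cos_zero, sin_zero, mul_one, sub_zero, zero_add] at c1 c2
  have h := sin_sq_add_cos_sq (k * x)
  field_simp
  linear_combination cos (k * x) * c1 + sin (k * x) * c2 - k * u x * h

/-- Solutions of the fifth order equation. -/
theorem trig_of_ode (hd : ∀ k x, HasDerivAt (H k) (H (k + 1) x) x)
    (h : ∀ x, H 5 x + 5 * H 3 x + 4 * H 1 x = 0) :
    ∃ a b1 b2 b3 b4 : ℝ, ∀ x, H 0 x = a + b1 * cos x + b2 * sin x + b3 * cos (2 * x)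
      + b4 * sin (2 * x) := by
  have u1 := harmonic (k := 1) one_ne_zero (u := fun x => H 3 x + 4 * H 1 x)
    (u' := fun x => H 4 x + 4 * H 2 x) (fun x => (hd 3 x).add ((hd 1 x).const_mul 4))
    (fun x => ((hd 4 x).add ((hd 2 x).const_mul 4)).congr_deriv (by linear_combination h x))
  have u2 := harmonic (k := 2) two_ne_zero (u := fun x => H 3 x + H 1 x)
    (u' := fun x => H 4 x + H 2 x) (fun x => (hd 3 x).add (hd 1 x))
    (fun x => ((hd 4 x).add (hd 2 x)).congr_deriv (by linear_combination h x))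
  simp only [one_mul, div_one] at u1 u2
  set A := H 3 0 + 4 * H 1 0
  set B := H 4 0 + 4 * H 2 0
  set C := H 3 0 + H 1 0
  set D := H 4 0 + H 2 0
  have hc := der_cosk 2
  have hs := der_sink 2
  have e : ∀ x, HasDerivAt (fun x => H 0 x - (A / 3 * sin x - B / 3 * cos x - C / 6 * sin (2 * x)
      + D / 12 * cos (2 * x))) 0 x := by
    intro x
    refine ((hd 0 x).sub (((((hasDerivAt_sin x).const_mul (A / 3)).sub
      ((hasDerivAt_cos x).const_mul (B / 3))).sub ((hs x).const_mul (C / 6))).add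
      ((hc x).const_mul (D / 12)))).congr_deriv ?_
    have v1 := u1 x
    have v2 := u2 x
    simp only [zero_add]
    linear_combination (1 / 3) * v1 - (1 / 3) * v2
  refine ⟨H 0 0 - (A / 3 * sin 0 - B / 3 * cos 0 - C / 6 * sin (2 * 0)
      + D / 12 * cos (2 * 0)), -B / 3, A / 3, D / 12, -C / 6, fun x => ?_⟩
  have c1 := is_const_of_deriv_eq_zero (fun x => (e x).differentiableAt)
    (fun x => (e x).deriv) x 0
  linear_combination c1

/-- The hypotheses of the rigidity theorem, in the analytic form. -/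
structure Rig (H : ℕ → ℝ → ℝ) (Φ P Q R : ℝ → ℝ → ℝ) (m M : ℝ) : Prop where
  fam : Fam H Φ P Q R
  m_pos : 0 < m
  M_pos : 0 < M
  bd : ∀ c ∈ Ioc (0 : ℝ) 1, ∀ x, m * c ≤ Φ c x - x ∧ Φ c x - x ≤ M * c ∧ |P c x - 1| ≤ M * c
  out : ∀ x, flx H Φ P 1 x ≤ 0
  zero : ∀ x, Φ 0 x = x

variable {m M : ℝ}

theorem Rig.rigid (F : Rig H Φ P Q R m M) {c : ℝ} (hc : c ∈ Ioo (0 : ℝ) 1) (x : ℝ) :
    nn H x (Φ c x) = 0 ∧ psi H x (Φ c x) * P c x = psp H x (Φ c x) :=
  PC.rigid F.fam F.m_pos F.M_pos F.bd F.out hc x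

theorem Rig.partials (F : Rig H Φ P Q R m M) {c : ℝ} (hc : c ∈ Ioo (0 : ℝ) 1) (x : ℝ) :
    nnx H x (Φ c x) = 0 ∧ nny H x (Φ c x) = 0 := by
  have hc' : c ∈ Ioc (0 : ℝ) 1 := ⟨hc.1, hc.2.le⟩
  have hs := (F.fam.leaf c hc').sin_ne x
  have d1 := der_nn F.fam.jet (hasDerivAt_const c x) (F.fam.dc c x) hs
  have d2 := der_nn F.fam.jet (hasDerivAt_id x) (F.fam.dx c x) hs
  have z1 : (fun t => nn H x (Φ t x)) =ᶠ[𝓝 c] fun _ => 0 := by
    filter_upwards [Ioo_mem_nhds hc.1 hc.2] with t ht using (F.rigid ht x).1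
  have z2 : (fun t => nn H (id t) (Φ c t)) = fun _ => 0 := funext fun t => (F.rigid hc t).1
  have e1 := (d1.congr_of_eventuallyEq z1.symm).unique (hasDerivAt_const c (0 : ℝ))
  rw [z2] at d2
  have e2 := d2.unique (hasDerivAt_const x (0 : ℝ))
  simp only [id, mul_zero, zero_add, mul_one] at e1 e2
  have hy := (mul_eq_zero.1 e1).resolve_right (F.fam.Qpos c hc' x).ne'
  refine ⟨?_, hy⟩
  rw [hy] at e2
  linarith

theorem Rig.ell_const (F : Rig H Φ P Q R m M) {c : ℝ} (hc : c ∈ Ioo (0 : ℝ) 1) (x : ℝ) :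
    ell H x (Φ c x) = ell H 0 (Φ c 0) := by
  have hc' : c ∈ Ioc (0 : ℝ) 1 := ⟨hc.1, hc.2.le⟩
  have e : ∀ x, HasDerivAt (fun x => ell H x (Φ c x)) 0 x := by
    intro x
    have hs := (F.fam.leaf c hc').sin_ne x
    have hX := hasDerivAt_id x
    have hY := F.fam.dx c x
    have hct := der_ct hX hY hs
    have h := (((der_H F.fam.jet 0 hX).mul (hct.pow 2)).add ((der_H F.fam.jet 1 hX).mul hct)).add
      (((der_H F.fam.jet 0 hX).add (der_H F.fam.jet 2 hX)).div_const 3)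
    refine h.congr_deriv ?_
    have h1 := (F.partials hc x).1
    have h2 := (F.rigid hc x).2
    unfold nnx at h1
    unfold psi psp at h2
    simp only [id, Nat.add_one_sub_one, Nat.cast_ofNat, zero_add, Nat.reduceAdd, pow_one,
      Pi.pow_apply]
    linear_combination h1 - 2 * am (Φ c x - x) * h2
  exact is_const_of_deriv_eq_zero (fun x => (e x).differentiableAt) (fun x => (e x).deriv) x 0

theorem Rig.ell_const' (F : Rig H Φ P Q R m M) {c : ℝ} (hc : c ∈ Ioc (0 : ℝ) 1) (x : ℝ) :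
    ell H x (Φ c x) = ell H 0 (Φ c 0) := by
  rcases lt_or_eq_of_le hc.2 with h | h
  · exact F.ell_const ⟨hc.1, h⟩ x
  · subst h
    have hct : ∀ x, ContinuousAt (fun c => ct (Φ c x - x)) 1 := fun x =>
      (der_ct (hasDerivAt_const 1 x) (F.fam.dc 1 x) ((F.fam.leaf 1 hc).sin_ne x)).continuousAt
    have hl : ∀ x, ContinuousAt (fun c => ell H x (Φ c x)) 1 := fun x =>
      ((continuousAt_const.mul ((hct x).pow 2)).add (continuousAt_const.mul (hct x))).add
        continuousAt_const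
    have h1 : Tendsto (fun c => ell H x (Φ c x)) (𝓝[<] 1) (𝓝 (ell H x (Φ 1 x))) :=
      (hl x).tendsto.mono_left nhdsWithin_le_nhds
    have h2 : Tendsto (fun c => ell H 0 (Φ c 0)) (𝓝[<] 1) (𝓝 (ell H 0 (Φ 1 0))) :=
      (hl 0).tendsto.mono_left nhdsWithin_le_nhds
    refine tendsto_nhds_unique (h1.congr' ?_) h2
    filter_upwards [Ioo_mem_nhdsLT (zero_lt_one (α := ℝ))] with t ht
    exact F.ell_const ht x

theorem Rig.ode (F : Rig H Φ P Q R m M) (x : ℝ) : H 5 x + 5 * H 3 x + 4 * H 1 x = 0 := by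
  have h1m : (1 : ℝ) ∈ Ioc (0 : ℝ) 1 := ⟨one_pos, le_rfl⟩
  have hδ : 0 < Φ 1 x - x := by
    have := (F.bd 1 h1m x).1
    have := F.m_pos
    linarith
  refine ode_of_zero F.fam.jet x hδ fun u hu => ?_
  have hcont : ContinuousOn (fun c => Φ c x) (Icc 0 1) :=
    fun c _ => (F.fam.dc c x).continuousAt.continuousWithinAt
  have hmem : x + u ∈ Ioo (Φ 0 x) (Φ 1 x) := by
    rw [F.zero]
    exact ⟨by linarith [hu.1], by linarith [hu.2]⟩
  obtain ⟨c, hc, hcu⟩ := intermediate_value_Ioo zero_le_one hcont hmem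
  have h1 := (F.rigid hc x).1
  have hs := (F.fam.leaf c ⟨hc.1, hc.2.le⟩).sin_ne x
  have h2 : Φ c x = x + u := hcu
  rw [h2] at h1 hs
  rw [show x + u - x = u by ring] at hs
  have h3 := nn_eq (H := H) x u hs
  rw [h1, zero_mul, eq_comm, div_eq_zero_iff] at h3
  exact h3.resolve_right (by positivity)

end Pool.Agent.R279.PC
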