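import Pool.Agent.R279.PC.Tri

/-!
# The defect near the diagonal
-/

namespace Pool.Agent.R279.PC

open Real Set MeasureTheory Filter Topology

variable {H : ℕ → ℝ → ℝ}

section defs

variable (H) (x u : ℝ)

/-- `12 sin² (u/2) nn (x, x + u)`. -/
noncomputable def m0 : ℝ :=
  ((8 * H 0 x + 2 * H 2 x) + (-8) * H 0 (x + u) + (-2) * H 2 (x + u))
    + ((4 * H 0 x - 2 * H 2 x) + (-4) * H 0 (x + u) + 2 * H 2 (x + u)) * cos u
    + (6 * H 1 x + 6 * H 1 (x + u)) * sin u

/-- First derivative. -/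
noncomputable def m1 : ℝ :=
  ((-8) * H 1 (x + u) + (-2) * H 3 (x + u))
    + (6 * H 1 x + 2 * H 1 (x + u) + 2 * H 3 (x + u)) * cos u
    + ((-4 * H 0 x + 2 * H 2 x) + 4 * H 0 (x + u) + 4 * H 2 (x + u)) * sin u

/-- Second derivative. -/
noncomputable def m2 : ℝ :=
  ((-8) * H 2 (x + u) + (-2) * H 4 (x + u))
    + ((-4 * H 0 x + 2 * H 2 x) + 4 * H 0 (x + u) + 6 * H 2 (x + u) + 2 * H 4 (x + u)) * cos u
    + (-6 * H 1 x + 2 * H 1 (x + u) + 2 * H 3 (x + u)) * sin u

/-- Third derivative. -/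
noncomputable def m3 : ℝ :=
  ((-8) * H 3 (x + u) + (-2) * H 5 (x + u))
    + (-6 * H 1 x + 6 * H 1 (x + u) + 8 * H 3 (x + u) + 2 * H 5 (x + u)) * cos u
    + ((4 * H 0 x - 2 * H 2 x) + (-4) * H 0 (x + u) + (-4) * H 2 (x + u)) * sin u

/-- Fourth derivative. -/
noncomputable def m4 : ℝ :=
  ((-8) * H 4 (x + u) + (-2) * H 6 (x + u))
    + ((4 * H 0 x - 2 * H 2 x) + (-4) * H 0 (x + u) + 2 * H 2 (x + u) + 8 * H 4 (x + u)
      + 2 * H 6 (x + u)) * cos u
    + (6 * H 1 x + (-10) * H 1 (x + u) + (-12) * H 3 (x + u) + (-2) * H 5 (x + u)) * sin u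

/-- Fifth derivative. -/
noncomputable def m5 : ℝ :=
  ((-8) * H 5 (x + u) + (-2) * H 7 (x + u))
    + (6 * H 1 x + (-14) * H 1 (x + u) + (-10) * H 3 (x + u) + 6 * H 5 (x + u)
      + 2 * H 7 (x + u)) * cos u
    + ((-4 * H 0 x + 2 * H 2 x) + 4 * H 0 (x + u) + (-12) * H 2 (x + u) + (-20) * H 4 (x + u)
      + (-4) * H 6 (x + u)) * sin u

end defs

section der

variable (hH : Jet H) (x u : ℝ)

include hH

theorem der_k (j : ℕ) : HasDerivAt (fun u => H j (x + u)) (H (j + 1) (x + u)) u :=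
  (hH.der j (x + u)).comp_const_add x u

theorem der_m0 : HasDerivAt (m0 H x) (m1 H x u) u := by
  have k0 := der_k hH x u 0
  have k1 := der_k hH x u 1
  have k2 := der_k hH x u 2
  have h := ((((hasDerivAt_const u (8 * H 0 x + 2 * H 2 x)).add (k0.const_mul (-8))).add
    (k2.const_mul (-2))).add ((((hasDerivAt_const u (4 * H 0 x - 2 * H 2 x)).add
    (k0.const_mul (-4))).add (k2.const_mul 2)).mul (hasDerivAt_cos u))).add
    (((hasDerivAt_const u (6 * H 1 x)).add (k1.const_mul 6)).mul (hasDerivAt_sin u))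
  refine h.congr_deriv ?_
  unfold m1
  simp only [Pi.add_apply, zero_add, Nat.reduceAdd]
  ring

theorem der_m1 : HasDerivAt (m1 H x) (m2 H x u) u := by
  have k0 := der_k hH x u 0
  have k1 := der_k hH x u 1
  have k2 := der_k hH x u 2
  have k3 := der_k hH x u 3
  have h := (((k1.const_mul (-8)).add (k3.const_mul (-2))).add
    ((((hasDerivAt_const u (6 * H 1 x)).add (k1.const_mul 2)).add (k3.const_mul 2)).mul
      (hasDerivAt_cos u))).add ((((hasDerivAt_const u (-4 * H 0 x + 2 * H 2 x)).add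
      (k0.const_mul 4)).add (k2.const_mul 4)).mul (hasDerivAt_sin u))
  refine h.congr_deriv ?_
  unfold m2
  simp only [Pi.add_apply, zero_add, Nat.reduceAdd]
  ring

theorem der_m2 : HasDerivAt (m2 H x) (m3 H x u) u := by
  have k0 := der_k hH x u 0
  have k1 := der_k hH x u 1
  have k2 := der_k hH x u 2
  have k3 := der_k hH x u 3
  have k4 := der_k hH x u 4
  have h := (((k2.const_mul (-8)).add (k4.const_mul (-2))).add
    (((((hasDerivAt_const u (-4 * H 0 x + 2 * H 2 x)).add (k0.const_mul 4)).add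
      (k2.const_mul 6)).add (k4.const_mul 2)).mul
      (hasDerivAt_cos u))).add ((((hasDerivAt_const u (-6 * H 1 x)).add
      (k1.const_mul 2)).add (k3.const_mul 2)).mul (hasDerivAt_sin u))
  refine h.congr_deriv ?_
  unfold m3
  simp only [Pi.add_apply, zero_add, Nat.reduceAdd]
  ring

theorem der_m3 : HasDerivAt (m3 H x) (m4 H x u) u := by
  have k0 := der_k hH x u 0
  have k1 := der_k hH x u 1
  have k2 := der_k hH x u 2
  have k3 := der_k hH x u 3
  have k5 := der_k hH x u 5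
  have h := (((k3.const_mul (-8)).add (k5.const_mul (-2))).add
    (((((hasDerivAt_const u (-6 * H 1 x)).add (k1.const_mul 6)).add
      (k3.const_mul 8)).add (k5.const_mul 2)).mul
      (hasDerivAt_cos u))).add ((((hasDerivAt_const u (4 * H 0 x - 2 * H 2 x)).add
      (k0.const_mul (-4))).add (k2.const_mul (-4))).mul (hasDerivAt_sin u))
  refine h.congr_deriv ?_
  unfold m4
  simp only [Pi.add_apply, zero_add, Nat.reduceAdd]
  ring

theorem der_m4 : HasDerivAt (m4 H x) (m5 H x u) u := by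
  have k0 := der_k hH x u 0
  have k1 := der_k hH x u 1
  have k2 := der_k hH x u 2
  have k3 := der_k hH x u 3
  have k4 := der_k hH x u 4
  have k5 := der_k hH x u 5
  have k6 := der_k hH x u 6
  have h := (((k4.const_mul (-8)).add (k6.const_mul (-2))).add
    ((((((hasDerivAt_const u (4 * H 0 x - 2 * H 2 x)).add (k0.const_mul (-4))).add
      (k2.const_mul 2)).add (k4.const_mul 8)).add (k6.const_mul 2)).mul
      (hasDerivAt_cos u))).add (((((hasDerivAt_const u (6 * H 1 x)).add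
      (k1.const_mul (-10))).add (k3.const_mul (-12))).add (k5.const_mul (-2))).mul
      (hasDerivAt_sin u))
  refine h.congr_deriv ?_
  unfold m5
  simp only [Pi.add_apply, zero_add, Nat.reduceAdd]
  ring

end der

theorem cont_m5 (hH : Jet H) (x : ℝ) : Continuous (m5 H x) := by
  have h := hH.cont
  unfold m5
  fun_prop

theorem growth {f f' : ℝ → ℝ} (h0 : f 0 = 0) (hd : ∀ u, HasDerivAt f (f' u) u) {K : ℝ} (n : ℕ)
    (hK : 0 ≤ K) (hb : ∀ u, 0 ≤ u → |f' u| ≤ K * u ^ n) (u : ℝ) (hu : 0 ≤ u) :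
    |f u| ≤ K * u ^ (n + 1) := by
  have h1 := (convex_Icc (0 : ℝ) u).norm_image_sub_le_of_norm_hasDerivWithin_le (f := f)
    (f' := f') (C := K * u ^ n) (fun t _ => (hd t).hasDerivWithinAt)
    (fun t ht => (hb t ht.1).trans
      (mul_le_mul_of_nonneg_left (pow_le_pow_left₀ ht.1 ht.2 n) hK))
    (left_mem_Icc.2 hu) (right_mem_Icc.2 hu)
  rw [h0, sub_zero, sub_zero, norm_eq_abs, norm_eq_abs, abs_of_nonneg hu] at h1
  calc |f u| ≤ K * u ^ n * u := h1
    _ = K * u ^ (n + 1) := by ring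

theorem periodic_bound {f : ℝ → ℝ} (hf : Continuous f) (hp : ∀ x, f (x + 2 * π) = f x) :
    ∃ B, ∀ x, |f x| ≤ B := by
  obtain ⟨B, hB⟩ := (isCompact_Icc (a := (0 : ℝ)) (b := 2 * π)).exists_bound_of_continuousOn
    hf.continuousOn
  refine ⟨B, fun x => ?_⟩
  have h1 : Function.Periodic f (2 * π) := hp
  obtain ⟨y, hy, hxy⟩ := h1.exists_mem_Ico₀ two_pi_pos x
  rw [hxy]
  exact hB y ⟨hy.1, hy.2.le⟩

theorem Jet.bound (hH : Jet H) (n : ℕ) : ∃ B, 0 < B ∧ ∀ k < n, ∀ x, |H k x| ≤ B := by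
  induction n with
  | zero => exact ⟨1, one_pos, fun k hk => absurd hk (Nat.not_lt_zero k)⟩
  | succ n ih =>
    obtain ⟨B, hB0, hB⟩ := ih
    obtain ⟨B', hB'⟩ := periodic_bound (hH.cont n) (hH.per n)
    refine ⟨max B B', lt_max_of_lt_left hB0, fun k hk x => ?_⟩
    rcases Nat.lt_succ_iff_lt_or_eq.1 hk with h | h
    · exact (hB k h x).trans (le_max_left _ _)
    · rw [h]
      exact (hB' x).trans (le_max_right _ _)

theorem abs_mul_cos_le (a u : ℝ) : |a * cos u| ≤ |a| := by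
  rw [abs_mul]
  exact mul_le_of_le_one_right (abs_nonneg _) (abs_cos_le_one u)

theorem abs_mul_sin_le (a u : ℝ) : |a * sin u| ≤ |a| := by
  rw [abs_mul]
  exact mul_le_of_le_one_right (abs_nonneg _) (abs_sin_le_one u)

theorem m0_bound (hH : Jet H) : ∃ K, 0 < K ∧ ∀ x u, 0 ≤ u → |m0 H x u| ≤ K * u ^ 5 := by
  obtain ⟨B, hB0, hB⟩ := hH.bound 8
  refine ⟨94 * B, by positivity, fun x => ?_⟩
  have e0 : ∀ z, |H 0 z| ≤ B := hB 0 (by norm_num)
  have e1 : ∀ z, |H 1 z| ≤ B := hB 1 (by norm_num)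
  have e2 : ∀ z, |H 2 z| ≤ B := hB 2 (by norm_num)
  have e3 : ∀ z, |H 3 z| ≤ B := hB 3 (by norm_num)
  have e4 : ∀ z, |H 4 z| ≤ B := hB 4 (by norm_num)
  have e5 : ∀ z, |H 5 z| ≤ B := hB 5 (by norm_num)
  have e6 : ∀ z, |H 6 z| ≤ B := hB 6 (by norm_num)
  have e7 : ∀ z, |H 7 z| ≤ B := hB 7 (by norm_num)
  have b5 : ∀ u, 0 ≤ u → |m5 H x u| ≤ 94 * B * u ^ 0 := by
    intro u _
    have t1 : |(-8) * H 5 (x + u) + (-2) * H 7 (x + u)| ≤ 10 * B := by
      have a1 := abs_le.1 (e5 (x + u))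
      have a2 := abs_le.1 (e7 (x + u))
      rw [abs_le]
      constructor <;> linarith [a1.1, a1.2, a2.1, a2.2]
    have t2 : |6 * H 1 x + (-14) * H 1 (x + u) + (-10) * H 3 (x + u) + 6 * H 5 (x + u)
      + 2 * H 7 (x + u)| ≤ 38 * B := by
      have a0 := abs_le.1 (e1 x)
      have a1 := abs_le.1 (e5 (x + u))
      have a2 := abs_le.1 (e7 (x + u))
      have a3 := abs_le.1 (e1 (x + u))
      have a4 := abs_le.1 (e3 (x + u))
      rw [abs_le]
      constructor <;> linarith [a1.1, a1.2, a2.1, a2.2, a0.1, a0.2, a3.1, a3.2, a4.1, a4.2]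
    have t3 : |(-4 * H 0 x + 2 * H 2 x) + 4 * H 0 (x + u) + (-12) * H 2 (x + u)
      + (-20) * H 4 (x + u) + (-4) * H 6 (x + u)| ≤ 46 * B := by
      have a0 := abs_le.1 (e0 x)
      have a1 := abs_le.1 (e2 x)
      have a2 := abs_le.1 (e0 (x + u))
      have a3 := abs_le.1 (e2 (x + u))
      have a4 := abs_le.1 (e4 (x + u))
      have a5 := abs_le.1 (e6 (x + u))
      rw [abs_le]
      constructor <;> linarith [a1.1, a1.2, a2.1, a2.2, a0.1, a0.2, a3.1, a3.2, a4.1, a4.2,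
        a5.1, a5.2]
    unfold m5
    refine (abs_add_three _ _ _).trans ?_
    have s2 := (abs_mul_cos_le _ u).trans t2
    have s3 := (abs_mul_sin_le _ u).trans t3
    rw [pow_zero, mul_one]
    linarith
  have z4 : m4 H x 0 = 0 := by
    unfold m4
    simp only [add_zero, cos_zero, sin_zero]
    ring
  have z3 : m3 H x 0 = 0 := by
    unfold m3
    simp only [add_zero, cos_zero, sin_zero]
    ring
  have z2 : m2 H x 0 = 0 := by
    unfold m2
    simp only [add_zero, cos_zero, sin_zero]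
    ring
  have z1 : m1 H x 0 = 0 := by
    unfold m1
    simp only [add_zero, cos_zero, sin_zero]
    ring
  have z0 : m0 H x 0 = 0 := by
    unfold m0
    simp only [add_zero, cos_zero, sin_zero]
    ring
  have hK : 0 ≤ 94 * B := by positivity
  have b4 := growth z4 (der_m4 hH x) 0 hK b5
  have b3 := growth z3 (der_m3 hH x) 1 hK b4
  have b2 := growth z2 (der_m2 hH x) 2 hK b3
  have b1 := growth z1 (der_m1 hH x) 3 hK b2
  exact growth z0 (der_m0 hH x) 4 hK b1

theorem nn_eq (x u : ℝ) (hs : sin (u / 2) ≠ 0) :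
    nn H x (x + u) * am u = m0 H x u / (24 * sin (u / 2) ^ 4) := by
  have h1 : sin u = 2 * sin (u / 2) * cos (u / 2) := by
    rw [← sin_two_mul]
    congr 1
    ring
  have h2 : cos u = 1 - 2 * sin (u / 2) ^ 2 := by
    have := cos_two_mul (u / 2)
    have h3 := cos_sq' (u / 2)
    rw [show 2 * (u / 2) = u by ring] at this
    linarith
  have h3 : cos (u / 2) ^ 2 = 1 - sin (u / 2) ^ 2 := cos_sq' (u / 2)
  unfold nn am m0 ct
  rw [h1, h2, show x + u - x = u by ring]
  field_simp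
  linear_combination (72 * (H 0 x - H 0 (x + u))) * h3

/-- If the defect vanishes near the diagonal, then `H 0` satisfies the fifth order equation. -/
theorem ode_of_zero (hH : Jet H) (x : ℝ) {δ : ℝ} (hδ : 0 < δ)
    (h : ∀ u ∈ Ioo 0 δ, m0 H x u = 0) : H 5 x + 5 * H 3 x + 4 * H 1 x = 0 := by
  have step : ∀ {f f' : ℝ → ℝ}, (∀ u, HasDerivAt f (f' u) u) → (∀ u ∈ Ioo 0 δ, f u = 0) →
      ∀ u ∈ Ioo 0 δ, f' u = 0 := by
    intro f f' hd hz u hu
    have h1 : f =ᶠ[𝓝 u] fun _ => 0 := by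
      filter_upwards [Ioo_mem_nhds hu.1 hu.2] with t ht using hz t ht
    exact ((hd u).congr_of_eventuallyEq h1.symm).unique (hasDerivAt_const u 0)
  have h5 := step (der_m4 hH x) (step (der_m3 hH x) (step (der_m2 hH x) (step (der_m1 hH x)
    (step (der_m0 hH x) h))))
  have h6 : m5 H x 0 = 0 := by
    have h7 : Tendsto (m5 H x) (𝓝[>] 0) (𝓝 (m5 H x 0)) :=
      (cont_m5 hH x).continuousAt.tendsto.mono_left nhdsWithin_le_nhds
    have h8 : Tendsto (m5 H x) (𝓝[>] 0) (𝓝 0) := by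
      refine tendsto_const_nhds.congr' ?_
      filter_upwards [Ioo_mem_nhdsGT hδ] with u hu
      exact (h5 u hu).symm
    exact tendsto_nhds_unique h7 h8
  unfold m5 at h6
  simp only [add_zero, cos_zero, sin_zero, mul_one, mul_zero] at h6
  linarith

end Pool.Agent.R279.PC
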