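import Pool.Agent.R279.PC.Defs
import Pool.Agent.R279.PC.Concl

/-!
# From a projective foliation to the analytic data
-/

namespace Pool.Agent.R279.PC

open Real Set MeasureTheory Filter Topology
open scoped ContDiff

section slices

variable {Ψ : ℝ × ℝ → ℝ}

theorem slice_left (hΨ : Differentiable ℝ Ψ) (s t : ℝ) :
    HasDerivAt (fun s => Ψ (s, t)) (fderiv ℝ Ψ (s, t) (1, 0)) s := by
  have h1 : HasDerivAt (fun s : ℝ => (s, t)) ((1 : ℝ), (0 : ℝ)) s :=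
    (hasDerivAt_id s).prodMk (hasDerivAt_const s t)
  exact (hΨ (s, t)).hasFDerivAt.comp_hasDerivAt s h1

theorem slice_right (hΨ : Differentiable ℝ Ψ) (s t : ℝ) :
    HasDerivAt (fun t => Ψ (s, t)) (fderiv ℝ Ψ (s, t) (0, 1)) t := by
  have h1 : HasDerivAt (fun t : ℝ => (s, t)) ((0 : ℝ), (1 : ℝ)) t :=
    (hasDerivAt_const t s).prodMk (hasDerivAt_id t)
  exact (hΨ (s, t)).hasFDerivAt.comp_hasDerivAt t h1

theorem contDiff_dir (hΨ : ContDiff ℝ ∞ Ψ) (v : ℝ × ℝ) :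
    ContDiff ℝ ∞ (fun x => fderiv ℝ Ψ x v) :=
  (hΨ.fderiv_right (m := ∞) (by simp)).clm_apply contDiff_const

theorem fderiv_dir (hΨ : ContDiff ℝ ∞ Ψ) (v w x : ℝ × ℝ) :
    fderiv ℝ (fun x => fderiv ℝ Ψ x v) x w = fderiv ℝ (fderiv ℝ Ψ) x w v := by
  have hfd : Differentiable ℝ (fderiv ℝ Ψ) :=
    (hΨ.fderiv_right (m := ∞) (by simp)).differentiable (by simp)
  have h1 := (hfd x).hasFDerivAt.clm_apply (hasFDerivAt_const v x)
  rw [h1.fderiv]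
  simp

theorem fderiv_comm' (hΨ : ContDiff ℝ ∞ Ψ) (v w x : ℝ × ℝ) :
    fderiv ℝ (fun x => fderiv ℝ Ψ x v) x w = fderiv ℝ (fun x => fderiv ℝ Ψ x w) x v := by
  rw [fderiv_dir hΨ, fderiv_dir hΨ]
  have hs : IsSymmSndFDerivAt ℝ Ψ x := 
    (hΨ.contDiffAt.of_le (m := 2) (WithTop.coe_le_coe.2 le_top)).isSymmSndFDerivAt
      (by simp)
  exact hs.eq w v

end slices

/-- `∂ Φ / ∂ c`. -/
noncomputable def Qd (Φ : ℝ → ℝ → ℝ) (c x : ℝ) : ℝ :=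
  fderiv ℝ (fun p : ℝ × ℝ => Φ p.1 p.2) (c, x) (1, 0)

/-- `∂ Φ / ∂ x`. -/
noncomputable def Pd (Φ : ℝ → ℝ → ℝ) (c x : ℝ) : ℝ :=
  fderiv ℝ (fun p : ℝ × ℝ => Φ p.1 p.2) (c, x) (0, 1)

/-- The mixed derivative. -/
noncomputable def Rd (Φ : ℝ → ℝ → ℝ) (c x : ℝ) : ℝ :=
  fderiv ℝ (fun p : ℝ × ℝ => Pd Φ p.1 p.2) (c, x) (1, 0)

/-- The derivatives of `(∂ Φ / ∂ c)²` at `c = 0`. -/
noncomputable def Hd (Φ : ℝ → ℝ → ℝ) (k : ℕ) : ℝ → ℝ := iteratedDeriv k (fun x => Qd Φ 0 x ^ 2)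

variable {Φ : ℝ → ℝ → ℝ}

section

variable (F : ContDiff ℝ ∞ (fun p : ℝ × ℝ => Φ p.1 p.2))

include F

theorem smQ : ContDiff ℝ ∞ (fun p : ℝ × ℝ => Qd Φ p.1 p.2) := contDiff_dir F (1, 0)

theorem smP : ContDiff ℝ ∞ (fun p : ℝ × ℝ => Pd Φ p.1 p.2) := contDiff_dir F (0, 1)

theorem smR : ContDiff ℝ ∞ (fun p : ℝ × ℝ => Rd Φ p.1 p.2) := contDiff_dir (smP F) (1, 0)

theorem d_c (c x : ℝ) : HasDerivAt (fun c => Φ c x) (Qd Φ c x) c :=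
  slice_left (F.differentiable (by simp)) c x

theorem d_x (c x : ℝ) : HasDerivAt (Φ c) (Pd Φ c x) x :=
  slice_right (F.differentiable (by simp)) c x

theorem d_Pc (c x : ℝ) : HasDerivAt (fun c => Pd Φ c x) (Rd Φ c x) c :=
  slice_left ((smP F).differentiable (by simp)) c x

theorem d_Qx (c x : ℝ) : HasDerivAt (Qd Φ c) (Rd Φ c x) x := by
  have h := slice_right ((smQ F).differentiable (by simp)) c x
  refine h.congr_deriv ?_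
  exact fderiv_comm' F (1, 0) (0, 1) (c, x)

theorem tot_Φ (c x : ℝ) : HasFDerivAt (fun p : ℝ × ℝ => Φ p.1 p.2)
    (Qd Φ c x • ContinuousLinearMap.fst ℝ ℝ ℝ + Pd Φ c x • ContinuousLinearMap.snd ℝ ℝ ℝ)
    (c, x) := by
  have h := (F.differentiable (by simp) (c, x)).hasFDerivAt
  refine h.congr_fderiv ?_
  ext
  · simp [Qd]
  · simp [Pd]

theorem smh : ContDiff ℝ ∞ (fun x => Qd Φ 0 x ^ 2) := by
  have h : ContDiff ℝ ∞ (fun x : ℝ => ((0 : ℝ), x)) := by fun_prop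
  exact ((smQ F).comp h).pow 2

theorem der_Hd (k : ℕ) (x : ℝ) : HasDerivAt (Hd Φ k) (Hd Φ (k + 1) x) x := by
  have h := (smh F).differentiable_iteratedDeriv k (by exact_mod_cast ENat.coe_lt_top k)
  have h2 : Hd Φ (k + 1) x = deriv (Hd Φ k) x := by
    unfold Hd
    rw [iteratedDeriv_succ]
  rw [h2]
  exact (h x).hasDerivAt

theorem Hd_one (x : ℝ) : Hd Φ 1 x = 2 * Qd Φ 0 x * Rd Φ 0 x := by
  have h1 := der_Hd F 0 x
  have h2 : HasDerivAt (fun x => Qd Φ 0 x ^ 2) (2 * Qd Φ 0 x * Rd Φ 0 x) x :=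
    ((d_Qx F 0 x).pow 2).congr_deriv (by simp)
  have h3 : Hd Φ 0 = fun x => Qd Φ 0 x ^ 2 := by
    unfold Hd
    rw [iteratedDeriv_zero]
  rw [h3] at h1
  exact h1.unique h2

end

theorem Hd_zero (x : ℝ) : Hd Φ 0 x = Qd Φ 0 x ^ 2 := by
  unfold Hd
  rw [iteratedDeriv_zero]

section fol

variable (F : ProjFoliation Φ)

include F

theorem P_pos {c : ℝ} (hc : c ∈ Icc (0 : ℝ) 1) (x : ℝ) : 0 < Pd Φ c x := by
  have h := F.deriv_angle c hc x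
  rwa [(d_x F.smooth c x).deriv] at h

theorem Q_pos {c : ℝ} (hc : c ∈ Icc (0 : ℝ) 1) (x : ℝ) : 0 < Qd Φ c x := by
  have h := F.deriv_param c hc x
  rwa [(d_c F.smooth c x).deriv] at h

theorem Q_per {c : ℝ} (hc : c ∈ Icc (0 : ℝ) 1) (x : ℝ) : Qd Φ c (x + 2 * π) = Qd Φ c x := by
  have h1 := (d_c F.smooth c (x + 2 * π)).hasDerivWithinAt (s := Icc (0 : ℝ) 1)
  have h2 := ((d_c F.smooth c x).add_const (2 * π)).hasDerivWithinAt (s := Icc (0 : ℝ) 1)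
  have h3 : HasDerivWithinAt (fun c => Φ c (x + 2 * π)) (Qd Φ c x) (Icc 0 1) c :=
    h2.congr (fun t ht => F.per t ht x) (F.per c hc x)
  exact (uniqueDiffOn_Icc (zero_lt_one (α := ℝ)) c hc).eq_deriv _ h1 h3

theorem R_per {c : ℝ} (hc : c ∈ Icc (0 : ℝ) 1) (x : ℝ) : Rd Φ c (x + 2 * π) = Rd Φ c x := by
  have h1 : HasDerivAt (fun x => Qd Φ c (x + 2 * π)) (Rd Φ c (x + 2 * π)) x :=
    (d_Qx F.smooth c (x + 2 * π)).comp_add_const x (2 * π)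
  have h2 : (fun x => Qd Φ c (x + 2 * π)) = Qd Φ c := funext (Q_per F hc)
  rw [h2] at h1
  exact h1.unique (d_Qx F.smooth c x)

theorem P_zero (x : ℝ) : Pd Φ 0 x = 1 := by
  have h := d_x F.smooth 0 x
  have h2 : Φ 0 = fun x => x := funext F.zero
  rw [h2] at h
  exact h.unique (hasDerivAt_id x)

theorem jetF : Jet (Hd Φ) where
  der := der_Hd F.smooth
  per0 x := by rw [Hd_zero, Hd_zero, Q_per F ⟨le_rfl, zero_le_one⟩]

theorem exists_bounds : ∃ m M : ℝ, 0 < m ∧ 0 < M ∧ ∀ c ∈ Icc (0 : ℝ) 1, ∀ x,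
    m ≤ Qd Φ c x ∧ Qd Φ c x ≤ M ∧ |Rd Φ c x| ≤ M := by
  have hK : IsCompact (Icc (0 : ℝ) 1 ×ˢ Icc (0 : ℝ) (2 * π)) := isCompact_Icc.prod isCompact_Icc
  have hne : (Icc (0 : ℝ) 1 ×ˢ Icc (0 : ℝ) (2 * π)).Nonempty :=
    ⟨(0, 0), ⟨le_rfl, zero_le_one⟩, ⟨le_rfl, two_pi_pos.le⟩⟩
  obtain ⟨p, hp, hpm⟩ := hK.exists_isMinOn hne (smQ F.smooth).continuous.continuousOn
  obtain ⟨M1, hM1⟩ := hK.exists_bound_of_continuousOn (smQ F.smooth).continuous.continuousOn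
  obtain ⟨M2, hM2⟩ := hK.exists_bound_of_continuousOn (smR F.smooth).continuous.continuousOn
  have hm0 : 0 < Qd Φ p.1 p.2 := Q_pos F hp.1 p.2
  refine ⟨Qd Φ p.1 p.2, max M1 M2 ⊔ 1, hm0, lt_of_lt_of_le one_pos (le_max_right _ _),
    fun c hc x => ?_⟩
  have hQ : Function.Periodic (Qd Φ c) (2 * π) := Q_per F hc
  have hR : Function.Periodic (Rd Φ c) (2 * π) := R_per F hc
  obtain ⟨y, hy, hxy⟩ := hQ.exists_mem_Ico₀ two_pi_pos x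
  obtain ⟨z, hz, hxz⟩ := hR.exists_mem_Ico₀ two_pi_pos x
  refine ⟨?_, ?_, ?_⟩
  · rw [hxy]
    exact hpm (show (c, y) ∈ _ from ⟨hc, hy.1, hy.2.le⟩)
  · rw [hxy]
    have := hM1 (c, y) ⟨hc, hy.1, hy.2.le⟩
    exact (le_abs_self _).trans (this.trans ((le_max_left _ _).trans (le_max_left _ _)))
  · rw [hxz]
    have := hM2 (c, z) ⟨hc, hz.1, hz.2.le⟩
    exact this.trans ((le_max_right _ _).trans (le_max_left _ _))

theorem exists_bd : ∃ m M : ℝ, 0 < m ∧ 0 < M ∧ ∀ c ∈ Ioc (0 : ℝ) 1, ∀ x,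
    m * c ≤ Φ c x - x ∧ Φ c x - x ≤ M * c ∧ |Pd Φ c x - 1| ≤ M * c := by
  obtain ⟨m, M, hm, hM, hb⟩ := exists_bounds F
  refine ⟨m, M, hm, hM, fun c hc x => ?_⟩
  obtain ⟨t, ht, h1⟩ := exists_hasDerivAt_eq_slope (fun c => Φ c x) (fun c => Qd Φ c x) hc.1
    (fun c _ => (d_c F.smooth c x).continuousAt.continuousWithinAt)
    (fun c _ => d_c F.smooth c x)
  obtain ⟨s, hs, h2⟩ := exists_hasDerivAt_eq_slope (fun c => Pd Φ c x) (fun c => Rd Φ c x) hc.1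
    (fun c _ => (d_Pc F.smooth c x).continuousAt.continuousWithinAt)
    (fun c _ => d_Pc F.smooth c x)
  have ht' : t ∈ Icc (0 : ℝ) 1 := ⟨ht.1.le, (ht.2.trans_le hc.2).le⟩
  have hs' : s ∈ Icc (0 : ℝ) 1 := ⟨hs.1.le, (hs.2.trans_le hc.2).le⟩
  have hc0 := hc.1
  simp only [F.zero, sub_zero, P_zero F] at h1 h2
  rw [eq_div_iff hc0.ne'] at h1 h2
  rw [← h1, ← h2, abs_mul, abs_of_pos hc0]
  exact ⟨mul_le_mul_of_nonneg_right (hb t ht' x).1 hc0.le,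
    mul_le_mul_of_nonneg_right (hb t ht' x).2.1 hc0.le,
    mul_le_mul_of_nonneg_right (hb s hs' x).2.2 hc0.le⟩

theorem gt_self {c : ℝ} (hc : c ∈ Ioc (0 : ℝ) 1) (x : ℝ) : x < Φ c x := by
  obtain ⟨m, M, hm, hM, hb⟩ := exists_bd F
  have h1 := (hb c hc x).1
  have h2 : 0 < m * c := mul_pos hm hc.1
  linarith

theorem mono_c {c c' : ℝ} (hc : c ∈ Icc (0 : ℝ) 1) (hc' : c' ∈ Icc (0 : ℝ) 1) (h : c ≤ c')
    (x : ℝ) : Φ c x ≤ Φ c' x := by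
  have h1 : MonotoneOn (fun c => Φ c x) (Icc 0 1) := by
    refine monotoneOn_of_deriv_nonneg (convex_Icc 0 1)
      (fun c _ => (d_c F.smooth c x).continuousAt.continuousWithinAt)
      (fun c _ => (d_c F.smooth c x).differentiableAt.differentiableWithinAt) ?_
    intro t ht
    rw [interior_Icc] at ht
    exact (F.deriv_param t ⟨ht.1.le, ht.2.le⟩ x).le
  exact h1 hc hc' h

theorem mono_x {c : ℝ} (hc : c ∈ Icc (0 : ℝ) 1) : StrictMono (Φ c) :=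
  strictMono_of_deriv_pos (F.deriv_angle c hc)

theorem one_lt (x : ℝ) : Φ 1 (Φ 1 x) < x + 2 * π := by
  rcases F.outer with h | h
  · rw [← h x]
    exact gt_self F ⟨one_pos, le_rfl⟩ _
  · rw [h x]
    linarith [pi_pos]

theorem two_lt {c : ℝ} (hc : c ∈ Ioc (0 : ℝ) 1) (x : ℝ) : Φ c (Φ c x) < x + 2 * π := by
  have hc' : c ∈ Icc (0 : ℝ) 1 := ⟨hc.1.le, hc.2⟩
  have h1m : (1 : ℝ) ∈ Icc (0 : ℝ) 1 := ⟨zero_le_one, le_rfl⟩
  calc Φ c (Φ c x) ≤ Φ 1 (Φ c x) := mono_c F hc' h1m hc.2 _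
    _ ≤ Φ 1 (Φ 1 x) := (mono_x F h1m).monotone (mono_c F hc' h1m hc.2 _)
    _ < _ := one_lt F x

theorem lt_add {c : ℝ} (hc : c ∈ Ioc (0 : ℝ) 1) (x : ℝ) : Φ c x < x + 2 * π :=
  (gt_self F hc _).trans (two_lt F hc x)

theorem sin_pos' {c : ℝ} (hc : c ∈ Ioc (0 : ℝ) 1) (x : ℝ) : 0 < sin ((Φ c x - x) / 2) :=
  sin_pos_of_pos_of_lt_pi (by linarith [gt_self F hc x]) (by linarith [lt_add F hc x])

theorem exists_pre {c : ℝ} (hc : c ∈ Ioc (0 : ℝ) 1) (θ : ℝ) : ∃ w, Φ c w = θ := by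
  have hc' : c ∈ Icc (0 : ℝ) 1 := ⟨hc.1.le, hc.2⟩
  have h1 : Φ c (θ - 2 * π) < θ := by
    have := lt_add F hc (θ - 2 * π)
    linarith
  have h2 := gt_self F hc θ
  obtain ⟨w, _, hw⟩ := intermediate_value_Icc (f := Φ c) (a := θ - 2 * π) (b := θ)
    (by linarith [two_pi_pos]) (fun x _ => (d_x F.smooth c x).continuousAt.continuousWithinAt)
    ⟨h1.le, h2.le⟩
  exact ⟨w, hw⟩

end fol

end Pool.Agent.R279.PC
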