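import Mathlib

/-!
# Circumscribed polygons of a circle: the basic functions

For two points with angles `x` and `y` on the unit circle, `ct (y - x)` is the reciprocal of the
signed distance from the point `x` to the intersection point of the tangent lines at `x` and `y`.
-/

namespace Pool.Agent.R279.PC

open Real Set MeasureTheory Filter Topology

/-- `cot (u / 2)`. -/
noncomputable def ct (u : ℝ) : ℝ := cos (u / 2) / sin (u / 2)

/-- `1 / (2 sin² (u / 2))`. -/
noncomputable def am (u : ℝ) : ℝ := 1 / (2 * sin (u / 2) ^ 2)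

theorem am_eq {u : ℝ} (h : sin (u / 2) ≠ 0) : am u = (1 + ct u ^ 2) / 2 := by
  unfold am ct
  have h1 := sin_sq_add_cos_sq (u / 2)
  field_simp
  linarith

theorem am_pos {u : ℝ} (h : sin (u / 2) ≠ 0) : 0 < am u := by
  unfold am
  positivity

theorem hasDerivAt_ct {u : ℝ} (h : sin (u / 2) ≠ 0) : HasDerivAt ct (-am u) u := by
  have h1 : HasDerivAt (fun u : ℝ => u / 2) (1 / 2) u := by
    simpa using (hasDerivAt_id u).div_const 2
  have h2 := (h1.cos).div (h1.sin) h
  refine h2.congr_deriv ?_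
  have h3 := sin_sq_add_cos_sq (u / 2)
  unfold am
  field_simp
  linear_combination -h3

theorem hasDerivAt_am {u : ℝ} (h : sin (u / 2) ≠ 0) : HasDerivAt am (-(ct u * am u)) u := by
  have h1 : HasDerivAt (fun u : ℝ => u / 2) (1 / 2) u := by
    simpa using (hasDerivAt_id u).div_const 2
  have h2 := (((h1.sin).pow 2).const_mul 2)
  have h3 := (hasDerivAt_const u (1 : ℝ)).div h2 (mul_ne_zero two_ne_zero (pow_ne_zero 2 h))
  refine h3.congr_deriv ?_
  unfold am ct
  simp only [Pi.pow_apply, Nat.cast_ofNat, Nat.add_one_sub_one, pow_one]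
  field_simp
  ring

variable {H : ℕ → ℝ → ℝ}

/-- `H 0` is smooth and `2π`-periodic, and `H k` is its `k`-th derivative. -/
structure Jet (H : ℕ → ℝ → ℝ) : Prop where
  der : ∀ k x, HasDerivAt (H k) (H (k + 1) x) x
  per0 : ∀ x, H 0 (x + 2 * π) = H 0 x

theorem Jet.per (hH : Jet H) : ∀ k x, H k (x + 2 * π) = H k x := by
  intro k
  induction k with
  | zero => exact hH.per0
  | succ k ih =>
    intro x
    have h1 : HasDerivAt (fun x => H k (x + 2 * π)) (H (k + 1) (x + 2 * π)) x :=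
      (hH.der k (x + 2 * π)).comp_add_const x (2 * π)
    have h2 : (fun x => H k (x + 2 * π)) = H k := funext ih
    rw [h2] at h1
    exact h1.unique (hH.der k x)

theorem Jet.cont (hH : Jet H) (k : ℕ) : Continuous (H k) :=
  continuous_iff_continuousAt.2 fun x => (hH.der k x).continuousAt

/-- The first component of the comparison field. -/
noncomputable def psi (H : ℕ → ℝ → ℝ) (x y : ℝ) : ℝ := H 0 x * ct (y - x) + H 1 x / 2

/-- The second component of the comparison field. -/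
noncomputable def psp (H : ℕ → ℝ → ℝ) (x y : ℝ) : ℝ := H 0 y * ct (y - x) - H 1 y / 2

/-- The defect of the approximate integral. -/
noncomputable def nn (H : ℕ → ℝ → ℝ) (x y : ℝ) : ℝ :=
  (H 0 x - H 0 y) * ct (y - x) ^ 2 + (H 1 x + H 1 y) * ct (y - x)
    + ((H 0 x + H 2 x) / 3 - (H 0 y + H 2 y) / 3)

/-- `∂ nn / ∂ x`. -/
noncomputable def nnx (H : ℕ → ℝ → ℝ) (x y : ℝ) : ℝ :=
  H 1 x * ct (y - x) ^ 2 + (H 0 x - H 0 y) * (2 * ct (y - x) * am (y - x))
    + H 2 x * ct (y - x) + (H 1 x + H 1 y) * am (y - x) + (H 1 x + H 3 x) / 3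

/-- `∂ nn / ∂ y`. -/
noncomputable def nny (H : ℕ → ℝ → ℝ) (x y : ℝ) : ℝ :=
  -H 1 y * ct (y - x) ^ 2 - (H 0 x - H 0 y) * (2 * ct (y - x) * am (y - x))
    + H 2 y * ct (y - x) - (H 1 x + H 1 y) * am (y - x) - (H 1 y + H 3 y) / 3

/-- The polynomial in the Hopf identity. -/
noncomputable def bx (H : ℕ → ℝ → ℝ) (x C : ℝ) : ℝ :=
  H 0 x * H 1 x / 2 * C ^ 3 + (H 1 x ^ 2 / 4 + H 0 x * H 2 x / 2) * C ^ 2
    + (H 1 x * H 2 x / 4 + (H 1 x + H 3 x) / 3 * H 0 x / 2) * C + (H 1 x + H 3 x) / 3 * H 1 x / 4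

section deriv

variable {X Y : ℝ → ℝ} {X' Y' t : ℝ}

theorem der_sub (hX : HasDerivAt X X' t) (hY : HasDerivAt Y Y' t) :
    HasDerivAt (fun t => Y t - X t) (Y' - X') t := hY.sub hX

theorem der_ct (hX : HasDerivAt X X' t) (hY : HasDerivAt Y Y' t)
    (hs : sin ((Y t - X t) / 2) ≠ 0) :
    HasDerivAt (fun t => ct (Y t - X t)) (am (Y t - X t) * (X' - Y')) t := by
  refine ((hasDerivAt_ct hs).comp t (der_sub hX hY)).congr_deriv ?_
  ring

theorem der_am (hX : HasDerivAt X X' t) (hY : HasDerivAt Y Y' t)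
    (hs : sin ((Y t - X t) / 2) ≠ 0) :
    HasDerivAt (fun t => am (Y t - X t)) (ct (Y t - X t) * am (Y t - X t) * (X' - Y')) t := by
  refine ((hasDerivAt_am hs).comp t (der_sub hX hY)).congr_deriv ?_
  ring

theorem der_H (hH : Jet H) (k : ℕ) (hX : HasDerivAt X X' t) :
    HasDerivAt (fun t => H k (X t)) (H (k + 1) (X t) * X') t :=
  (hH.der k (X t)).comp t hX

theorem der_psi (hH : Jet H) (hX : HasDerivAt X X' t) (hY : HasDerivAt Y Y' t)
    (hs : sin ((Y t - X t) / 2) ≠ 0) :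
    HasDerivAt (fun t => psi H (X t) (Y t))
      ((H 1 (X t) * ct (Y t - X t) + H 0 (X t) * am (Y t - X t) + H 2 (X t) / 2) * X'
        - H 0 (X t) * am (Y t - X t) * Y') t := by
  have h := ((der_H hH 0 hX).mul (der_ct hX hY hs)).add ((der_H hH 1 hX).div_const 2)
  refine h.congr_deriv ?_
  ring

theorem der_psp (hH : Jet H) (hX : HasDerivAt X X' t) (hY : HasDerivAt Y Y' t)
    (hs : sin ((Y t - X t) / 2) ≠ 0) :
    HasDerivAt (fun t => psp H (X t) (Y t))
      (H 0 (Y t) * am (Y t - X t) * X'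
        + (H 1 (Y t) * ct (Y t - X t) - H 0 (Y t) * am (Y t - X t) - H 2 (Y t) / 2) * Y') t := by
  have h := ((der_H hH 0 hY).mul (der_ct hX hY hs)).sub ((der_H hH 1 hY).div_const 2)
  refine h.congr_deriv ?_
  ring

theorem der_nn (hH : Jet H) (hX : HasDerivAt X X' t) (hY : HasDerivAt Y Y' t)
    (hs : sin ((Y t - X t) / 2) ≠ 0) :
    HasDerivAt (fun t => nn H (X t) (Y t)) (nnx H (X t) (Y t) * X' + nny H (X t) (Y t) * Y') t := by
  have hc := der_ct hX hY hs
  have h := ((((der_H hH 0 hX).sub (der_H hH 0 hY)).mul (hc.pow 2)).add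
    (((der_H hH 1 hX).add (der_H hH 1 hY)).mul hc)).add
    ((((der_H hH 0 hX).add (der_H hH 2 hX)).div_const 3).sub
      (((der_H hH 0 hY).add (der_H hH 2 hY)).div_const 3))
  refine h.congr_deriv ?_
  unfold nnx nny
  simp only [Nat.add_one_sub_one, Nat.cast_ofNat, zero_add, Nat.reduceAdd, pow_one, Pi.sub_apply,
    Pi.add_apply, Pi.pow_apply]
  ring

end deriv

/-- The divergence identity: half of the divergence of `nn · am · (psi, psp)`. -/
theorem div_identity (x y : ℝ) (hs : sin ((y - x) / 2) ≠ 0) :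
    (1 / 2) * (nnx H x y * am (y - x) * psi H x y + nn H x y * (ct (y - x) * am (y - x)) * psi H x y
      + nn H x y * am (y - x) *
        (H 1 x * ct (y - x) + H 0 x * am (y - x) + H 2 x / 2)
      + nny H x y * am (y - x) * psp H x y - nn H x y * (ct (y - x) * am (y - x)) * psp H x y
      + nn H x y * am (y - x) * (H 1 y * ct (y - x) - H 0 y * am (y - x) - H 2 y / 2))
    = am (y - x) * (am (y - x) * (psi H x y - psp H x y) ^ 2 + bx H x (ct (y - x))
        + bx H y (-ct (y - x))) + 3 / 4 * am (y - x) * nn H x y ^ 2 := by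
  unfold nnx nny nn psi psp bx
  rw [am_eq hs]
  ring

end Pool.Agent.R279.PC
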