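import Mathlib

/-!
# Foliations around the unit circle with projective involutions: definitions
-/

namespace Pool.Agent.R279.PC

open Real Set
open scoped ContDiff

/-- Homogeneous coordinates of the point with angle `θ` of the unit circle `γ`,
`X² + Y² = Z²`. -/
noncomputable def circ (θ : ℝ) : Fin 3 → ℝ := ![cos θ, sin θ, 1]

/-- Homogeneous coordinates of the point at infinity of the tangent line `ℓ_θ` of `γ` at
`circ θ`. The line `ℓ_θ` consists of the points `a • circ θ + b • circ' θ`. -/
noncomputable def circ' (θ : ℝ) : Fin 3 → ℝ := ![-sin θ, cos θ, 0]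

/-- Homogeneous coordinates of the intersection point of the tangent lines `ℓ_x` and `ℓ_y`
(for `y - x` not a multiple of `2π`). Every point of the exterior of `γ` in the projective plane
is of this form. -/
noncomputable def tpt (x y : ℝ) : Fin 3 → ℝ :=
  ![cos ((x + y) / 2), sin ((x + y) / 2), cos ((y - x) / 2)]

/-- The homogeneous coordinates of the point `tpt θ y` of the line `ℓ_θ`, with respect to the
basis `circ θ`, `circ' θ`. -/
noncomputable def tco (θ y : ℝ) : Fin 2 → ℝ := ![cos ((y - θ) / 2), sin ((y - θ) / 2)]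

/-- The quadratic form of `γ`. -/
def formγ : Matrix (Fin 3) (Fin 3) ℝ := !![1, 0, 0; 0, 1, 0; 0, 0, -1]

/-- The value at the homogeneous coordinates `X` of the quadratic form with matrix `S`. -/
def conic (S : Matrix (Fin 3) (Fin 3) ℝ) (X : Fin 3 → ℝ) : ℝ := dotProduct X (S.mulVec X)

/-- A smooth foliation of the closed region between the unit circle `γ` and a closed curve around
it, on the exterior side in the projective plane, such that

* the leaves are `γ` (`c = 0`) and the closed curves `θ ↦ tpt θ (Φ c θ)`, `0 < c ≤ 1`: the leaf `c`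
  meets the tangent line `ℓ_θ` in the point `tpt θ (Φ c θ)` on one side of the point of tangency,
  and in the point `tpt w θ`, where `Φ c w = θ`, on the other side;
* for every `θ` the involution `σ_θ` of `ℓ_θ` which exchanges these two points for every leaf is
  projective;
* the outermost leaf `1` consists of the vertices of triangles circumscribed about `γ`, or of the
  vertices of parallelograms circumscribed about `γ`. -/
structure ProjFoliation (Φ : ℝ → ℝ → ℝ) : Prop where
  /-- the family is smooth -/
  smooth : ContDiff ℝ ∞ (fun p : ℝ × ℝ => Φ p.1 p.2)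
  /-- the leaf `0` is `γ` -/
  zero : ∀ θ, Φ 0 θ = θ
  /-- the leaves are closed curves going once around `γ` -/
  per : ∀ c ∈ Icc (0 : ℝ) 1, ∀ θ, Φ c (θ + 2 * π) = Φ c θ + 2 * π
  /-- both tangency points of the tangents from a point of the leaf move in the same direction -/
  deriv_angle : ∀ c ∈ Icc (0 : ℝ) 1, ∀ θ, 0 < deriv (Φ c) θ
  /-- the leaves form a foliation -/
  deriv_param : ∀ c ∈ Icc (0 : ℝ) 1, ∀ θ, 0 < deriv (fun c => Φ c θ) c
  /-- either for every `θ` the tangent lines at `θ`, `Φ 1 θ`, `Φ 1 (Φ 1 θ)` form a triangle with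
  vertices on the leaf `1`, or for every `θ` the tangent lines at `θ`, `Φ 1 θ`, `θ + π`,
  `Φ 1 θ + π` form a parallelogram with vertices on the leaf `1` -/
  outer : (∀ θ, Φ 1 (Φ 1 (Φ 1 θ)) = θ + 2 * π) ∨ (∀ θ, Φ 1 (Φ 1 θ) = θ + π)
  /-- the involutions `σ_θ` are projective: they are given by an invertible matrix -/
  proj : ∀ θ, ∃ A : Matrix (Fin 2) (Fin 2) ℝ, A.det ≠ 0 ∧
    ∀ c ∈ Ioc (0 : ℝ) 1, ∀ w, Φ c w = θ →
      (∃ k : ℝ, A.mulVec (tco θ (Φ c θ)) = k • tco θ w) ∧
      (∃ k : ℝ, A.mulVec (tco θ w) = k • tco θ (Φ c θ))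

/-- The meaning of `tco`. -/
theorem tpt_eq (θ y : ℝ) : tpt θ y = tco θ y 0 • circ θ + tco θ y 1 • circ' θ := by
  have h1 : (θ + y) / 2 = θ + (y - θ) / 2 := by ring
  ext i
  fin_cases i
  · simp [tpt, tco, circ, circ', h1, cos_add]
    ring
  · simp [tpt, tco, circ, circ', h1, sin_add]
    ring
  · simp [tpt, tco, circ, circ']

theorem tpt_comm (x y : ℝ) : tpt x y = tpt y x := by
  unfold tpt
  rw [add_comm x y, ← cos_neg ((x - y) / 2)]
  congr 5
  ring

end Pool.Agent.R279.PC
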