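import Pool.Agent.R279.PC.Build

/-!
# The difference equation of the leaves
-/

namespace Pool.Agent.R279.PC

open Real Set MeasureTheory Filter Topology
open scoped ContDiff

theorem ct_neg (u : ℝ) : ct (-u) = -ct u := by
  unfold ct
  rw [neg_div, cos_neg, sin_neg, div_neg]

theorem sin_eq_sinc_mul (x : ℝ) : sin x = sinc x * x := by
  by_cases h : x = 0
  · simp [h]
  · rw [sinc_of_ne_zero h]
    field_simp

theorem ct_sub_eq {u v : ℝ} (hu : sin (u / 2) ≠ 0) (hv : sin (v / 2) ≠ 0) :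
    ct u - ct v = sin ((v - u) / 2) / (sin (u / 2) * sin (v / 2)) := by
  have h : (v - u) / 2 = v / 2 - u / 2 := by ring
  unfold ct
  rw [h, sin_sub]
  field_simp

variable {Φ : ℝ → ℝ → ℝ}

/-- The choice of preimages and intermediate points. -/
theorem exists_choice (F : ProjFoliation Φ) (θ : ℝ) {m M : ℝ}
    (hb : ∀ c ∈ Ioc (0 : ℝ) 1, ∀ x,
      m * c ≤ Φ c x - x ∧ Φ c x - x ≤ M * c ∧ |Pd Φ c x - 1| ≤ M * c) :
    ∃ w ξ s : ℝ → ℝ, ∀ c ∈ Ioc (0 : ℝ) 1, Φ c (w c) = θ ∧ m * c ≤ θ - w c ∧ θ - w c ≤ M * c ∧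
      ξ c ∈ Icc (θ - M * c) θ ∧ s c ∈ Icc 0 c ∧
      (Φ c θ - θ) - (θ - w c) = c * Rd Φ (s c) (ξ c) * (θ - w c) := by
  have key : ∀ c, ∃ w ξ s : ℝ, c ∈ Ioc (0 : ℝ) 1 → Φ c w = θ ∧ m * c ≤ θ - w ∧ θ - w ≤ M * c ∧
      ξ ∈ Icc (θ - M * c) θ ∧ s ∈ Icc 0 c ∧
      (Φ c θ - θ) - (θ - w) = c * Rd Φ s ξ * (θ - w) := by
    intro c
    by_cases hc : c ∈ Ioc (0 : ℝ) 1
    swap
    · exact ⟨0, 0, 0, fun h => absurd h hc⟩
    obtain ⟨w, hw⟩ := exists_pre F hc θ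
    have hwθ : w < θ := by
      have := gt_self F hc w
      rwa [hw] at this
    have hbw := hb c hc w
    rw [hw] at hbw
    obtain ⟨ξ, hξ, h1⟩ := exists_hasDerivAt_eq_slope (Φ c) (Pd Φ c) hwθ
      (fun x _ => (d_x F.smooth c x).continuousAt.continuousWithinAt)
      (fun x _ => d_x F.smooth c x)
    obtain ⟨s, hs, h2⟩ := exists_hasDerivAt_eq_slope (fun c => Pd Φ c ξ) (fun c => Rd Φ c ξ) hc.1
      (fun c _ => (d_Pc F.smooth c ξ).continuousAt.continuousWithinAt)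
      (fun c _ => d_Pc F.smooth c ξ)
    refine ⟨w, ξ, s, fun _ => ⟨hw, hbw.1, hbw.2.1, ⟨by linarith [hξ.1, hbw.2.1], hξ.2.le⟩,
      ⟨hs.1.le, hs.2.le⟩, ?_⟩⟩
    have hc0 := hc.1.ne'
    have hne : θ - w ≠ 0 := by
      have : 0 < θ - w := by linarith
      exact this.ne'
    rw [P_zero F, sub_zero, eq_div_iff hc0] at h2
    rw [hw, eq_div_iff hne] at h1
    have h3 : Pd Φ c ξ = 1 + Rd Φ s ξ * c := by linarith
    rw [h3] at h1
    linarith
  choose w ξ s h using key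
  exact ⟨w, ξ, s, h⟩

theorem tendsto_small {f : ℝ → ℝ} {M : ℝ} (h : ∀ c ∈ Ioc (0 : ℝ) 1, 0 ≤ f c ∧ f c ≤ M * c) :
    Tendsto f (𝓝[>] 0) (𝓝 0) := by
  have h1 : Tendsto (fun c : ℝ => M * c) (𝓝[>] 0) (𝓝 0) := by
    have : Tendsto (fun c : ℝ => M * c) (𝓝 0) (𝓝 (M * 0)) :=
      (continuous_const.mul continuous_id).tendsto 0
    rw [mul_zero] at this
    exact this.mono_left nhdsWithin_le_nhds
  have hmem : ∀ᶠ c in 𝓝[>] (0 : ℝ), c ∈ Ioc (0 : ℝ) 1 := Ioc_mem_nhdsGT one_pos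
  refine tendsto_of_tendsto_of_tendsto_of_le_of_le' tendsto_const_nhds h1 ?_ ?_
  · filter_upwards [hmem] with c hc using (h c hc).1
  · filter_upwards [hmem] with c hc using (h c hc).2

theorem tend_half {f g : ℝ → ℝ} {l : Filter ℝ} (hf : Continuous f) (hg : Tendsto g l (𝓝 0)) :
    Tendsto (fun c => f (g c / 2)) l (𝓝 (f 0)) := by
  have h1 : Tendsto (fun c => g c / 2) l (𝓝 0) := by simpa using hg.div_const 2
  exact (hf.tendsto 0).comp h1

/-- The reciprocals of the coordinates of the two points of a leaf have constant sum. -/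
theorem recip (F : ProjFoliation Φ) (θ : ℝ) : ∃ β, ∀ c ∈ Ioc (0 : ℝ) 1, ∀ w, Φ c w = θ →
    ct (Φ c θ - θ) - ct (θ - w) = β := by
  obtain ⟨m, M, hm, hM, hb⟩ := exists_bd F
  obtain ⟨A, hA, h⟩ := F.proj θ
  rw [Matrix.det_fin_two] at hA
  have cross : ∀ c ∈ Ioc (0 : ℝ) 1, ∀ w, Φ c w = θ →
      (A 0 0 * cos ((Φ c θ - θ) / 2) + A 0 1 * sin ((Φ c θ - θ) / 2)) * sin ((w - θ) / 2)
        = (A 1 0 * cos ((Φ c θ - θ) / 2) + A 1 1 * sin ((Φ c θ - θ) / 2)) * cos ((w - θ) / 2) ∧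
      (A 0 0 * cos ((w - θ) / 2) + A 0 1 * sin ((w - θ) / 2)) * sin ((Φ c θ - θ) / 2)
        = (A 1 0 * cos ((w - θ) / 2) + A 1 1 * sin ((w - θ) / 2)) * cos ((Φ c θ - θ) / 2) := by
    intro c hc w hw
    obtain ⟨⟨k, hk⟩, k', hk'⟩ := h c hc w hw
    have e0 := congrFun hk 0
    have e1 := congrFun hk 1
    have e0' := congrFun hk' 0
    have e1' := congrFun hk' 1
    simp only [tco, Matrix.mulVec, dotProduct, Fin.sum_univ_two, Matrix.cons_val_zero,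
      Matrix.cons_val_one, Pi.smul_apply, smul_eq_mul] at e0 e1 e0' e1'
    rw [e0, e1, e0', e1']
    constructor <;> ring
  have hs1 : ∀ c ∈ Ioc (0 : ℝ) 1, 0 < sin ((Φ c θ - θ) / 2) := fun c hc => sin_pos' F hc θ
  have hs2 : ∀ c ∈ Ioc (0 : ℝ) 1, ∀ w, Φ c w = θ → 0 < sin ((θ - w) / 2) := by
    intro c hc w hw
    have := sin_pos' F hc w
    rwa [hw] at this
  have hd : A 1 1 = -A 0 0 := by
    have h1m : (1 : ℝ) ∈ Ioc (0 : ℝ) 1 := ⟨one_pos, le_rfl⟩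
    obtain ⟨w, hw⟩ := exists_pre F h1m θ
    obtain ⟨x1, x2⟩ := cross 1 h1m w hw
    have h1 : 0 < sin ((Φ 1 θ - w) / 2) := by
      have t1 := gt_self F h1m θ
      have t2 := gt_self F h1m w
      have t3 := two_lt F h1m w
      rw [hw] at t2 t3
      exact sin_pos_of_pos_of_lt_pi (by linarith) (by linarith)
    have h2 : sin ((Φ 1 θ - w) / 2) = sin ((Φ 1 θ - θ) / 2) * cos ((w - θ) / 2)
        - cos ((Φ 1 θ - θ) / 2) * sin ((w - θ) / 2) := by
      rw [← sin_sub]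
      congr 1
      ring
    rw [h2] at h1
    have h3 : (A 0 0 + A 1 1) * (sin ((Φ 1 θ - θ) / 2) * cos ((w - θ) / 2)
        - cos ((Φ 1 θ - θ) / 2) * sin ((w - θ) / 2)) = 0 := by
      linear_combination x2 - x1
    have h4 := (mul_eq_zero.1 h3).resolve_right h1.ne'
    linarith
  have hg : A 1 0 = 0 := by
    obtain ⟨w, ξ, s, hw⟩ := exists_choice F θ hb
    have t1 : Tendsto (fun c => Φ c θ - θ) (𝓝[>] 0) (𝓝 0) :=
      tendsto_small (M := M) fun c hc => ⟨by linarith [gt_self F hc θ], (hb c hc θ).2.1⟩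
    have t2 : Tendsto (fun c => θ - w c) (𝓝[>] 0) (𝓝 0) :=
      tendsto_small (M := M) fun c hc => ⟨by
        have := (hw c hc).2.1
        have : 0 < m * c := mul_pos hm hc.1
        linarith, (hw c hc).2.2.1⟩
    have t3 : Tendsto (fun c => w c - θ) (𝓝[>] 0) (𝓝 0) := by
      have := t2.neg
      simpa using this
    have c1 : Tendsto (fun c => cos ((Φ c θ - θ) / 2)) (𝓝[>] 0) (𝓝 1) := by
      simpa using tend_half continuous_cos t1
    have c2 : Tendsto (fun c => cos ((w c - θ) / 2)) (𝓝[>] 0) (𝓝 1) := by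
      simpa using tend_half continuous_cos t3
    have s1 : Tendsto (fun c => sin ((Φ c θ - θ) / 2)) (𝓝[>] 0) (𝓝 0) := by
      simpa using tend_half continuous_sin t1
    have s2 : Tendsto (fun c => sin ((w c - θ) / 2)) (𝓝[>] 0) (𝓝 0) := by
      simpa using tend_half continuous_sin t3
    have l1 := ((c1.const_mul (A 0 0)).add (s1.const_mul (A 0 1))).mul s2
    have l2 := ((c1.const_mul (A 1 0)).add (s1.const_mul (A 1 1))).mul c2
    have l3 := tendsto_nhds_unique (l1.congr' (by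
      filter_upwards [Ioc_mem_nhdsGT (zero_lt_one (α := ℝ))] with c hc
      exact (cross c hc (w c) (hw c hc).1).1)) l2
    simpa using l3.symm
  have ha : A 0 0 ≠ 0 := by
    intro ha
    apply hA
    rw [ha, hg]
    ring
  refine ⟨-(A 0 1 / A 0 0), fun c hc w hw => ?_⟩
  have x1 := (cross c hc w hw).1
  have p1 := hs1 c hc
  have p2 := hs2 c hc w hw
  have h2 : sin ((w - θ) / 2) = -sin ((θ - w) / 2) := by
    rw [← sin_neg]
    congr 1
    ring
  have h3 : cos ((w - θ) / 2) = cos ((θ - w) / 2) := by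
    rw [← cos_neg]
    congr 1
    ring
  rw [hg, hd, h2, h3] at x1
  unfold ct
  field_simp
  linear_combination -x1

/-- The difference equation. -/
theorem el_eq (F : ProjFoliation Φ) {c : ℝ} (hc : c ∈ Ioc (0 : ℝ) 1) (x : ℝ) :
    ct (Φ c (Φ c x) - Φ c x) - ct (Φ c x - x) = -(Hd Φ 1 (Φ c x) / Hd Φ 0 (Φ c x)) := by
  obtain ⟨m, M, hm, hM, hb⟩ := exists_bd F
  obtain ⟨θ, hθ⟩ : ∃ θ, θ = Φ c x := ⟨_, rfl⟩
  obtain ⟨β, hβ⟩ := recip F θ
  have hβc := hβ c hc x hθ.symm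
  rw [← hθ, hβc]
  obtain ⟨w, ξ, s, hw⟩ := exists_choice F θ hb
  have hQ0 : 0 < Qd Φ 0 θ := Q_pos F ⟨le_rfl, zero_le_one⟩ θ
  have hmem : ∀ᶠ c in 𝓝[>] (0 : ℝ), c ∈ Ioc (0 : ℝ) 1 := Ioc_mem_nhdsGT one_pos
  have t1 : Tendsto (fun c => Φ c θ - θ) (𝓝[>] 0) (𝓝 0) :=
    tendsto_small (M := M) fun c hc => ⟨by linarith [gt_self F hc θ], (hb c hc θ).2.1⟩
  have t2 : Tendsto (fun c => θ - w c) (𝓝[>] 0) (𝓝 0) :=
    tendsto_small (M := M) fun c hc => ⟨by
      have := (hw c hc).2.1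
      have : 0 < m * c := mul_pos hm hc.1
      linarith, (hw c hc).2.2.1⟩
  have t3 : Tendsto s (𝓝[>] 0) (𝓝 0) :=
    tendsto_small (M := 1) fun c hc => ⟨(hw c hc).2.2.2.2.1.1, by
      rw [one_mul]
      exact (hw c hc).2.2.2.2.1.2⟩
  have t4 : Tendsto (fun c => θ - ξ c) (𝓝[>] 0) (𝓝 0) :=
    tendsto_small (M := M) fun c hc => ⟨by linarith [(hw c hc).2.2.2.1.2],
      by linarith [(hw c hc).2.2.2.1.1]⟩
  have t5 : Tendsto ξ (𝓝[>] 0) (𝓝 θ) := by
    have := (tendsto_const_nhds (x := θ)).sub t4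
    simpa using this
  have t6 : Tendsto (fun c => Rd Φ (s c) (ξ c)) (𝓝[>] 0) (𝓝 (Rd Φ 0 θ)) :=
    ((smR F.smooth).continuous.tendsto (0, θ)).comp (t3.prodMk_nhds t5)
  have t7 : Tendsto (fun c => (Φ c θ - θ) / c) (𝓝[>] 0) (𝓝 (Qd Φ 0 θ)) := by
    have h := hasDerivAt_iff_tendsto_slope_zero.1 (d_c F.smooth 0 θ)
    simp only [zero_add, F.zero, smul_eq_mul] at h
    refine (h.mono_left (nhdsWithin_mono 0 (fun c hc => (ne_of_gt hc)))).congr fun c => ?_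
    rw [div_eq_inv_mul]
  have t8 : Tendsto (fun c => sinc ((Φ c θ - θ) / 2)) (𝓝[>] 0) (𝓝 1) := by
    simpa using tend_half continuous_sinc t1
  have t9 : Tendsto (fun c => sinc ((θ - w c) / 2)) (𝓝[>] 0) (𝓝 1) := by
    simpa using tend_half continuous_sinc t2
  have t10 : Tendsto (fun c => sinc (((θ - w c) - (Φ c θ - θ)) / 2)) (𝓝[>] 0) (𝓝 1) := by
    have t21 := t2.sub t1
    rw [sub_zero] at t21
    simpa using tend_half continuous_sinc t21
  have hlim := ((t10.mul t6).const_mul (-2)).div ((t7.mul t8).mul t9)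
    (by simpa using hQ0.ne')
  have hcon : Tendsto (fun _ : ℝ => β) (𝓝[>] 0) (𝓝 (-2 * (1 * Rd Φ 0 θ) / (Qd Φ 0 θ * 1 * 1))) := by
    refine hlim.congr' ?_
    filter_upwards [hmem] with c hc
    simp only [Pi.div_apply]
    obtain ⟨w1, w2, w3, w4, w5, w6⟩ := hw c hc
    have p1 := sin_pos' F hc θ
    have p2 := sin_pos' F hc (w c)
    rw [w1] at p2
    have hc0 := hc.1.ne'
    rw [← hβ c hc (w c) w1, ct_sub_eq p1.ne' p2.ne', sin_eq_sinc_mul (((θ - w c) - (Φ c θ - θ)) / 2),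
      sin_eq_sinc_mul ((Φ c θ - θ) / 2), sin_eq_sinc_mul ((θ - w c) / 2)]
    rw [sin_eq_sinc_mul] at p1 p2
    have n1 : sinc ((Φ c θ - θ) / 2) ≠ 0 := fun h => by
      rw [h, zero_mul] at p1
      exact lt_irrefl _ p1
    have n2 : sinc ((θ - w c) / 2) ≠ 0 := fun h => by
      rw [h, zero_mul] at p2
      exact lt_irrefl _ p2
    have n3 : Φ c θ - θ ≠ 0 := by
      have := gt_self F hc θ
      exact (sub_pos.2 this).ne'
    have n4 : θ - w c ≠ 0 := by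
      have := gt_self F hc (w c)
      rw [w1] at this
      exact (sub_pos.2 this).ne'
    have w7 : (θ - w c) - (Φ c θ - θ) = -(c * Rd Φ (s c) (ξ c) * (θ - w c)) := by linarith
    generalize hS : sinc (((θ - w c) - (Φ c θ - θ)) / 2) = S
    rw [w7]
    field_simp
    try ring
  have hβ2 := tendsto_nhds_unique hcon (tendsto_const_nhds (x := β))
  rw [← hβ2, Hd_one F.smooth, Hd_zero]
  field_simp

end Pool.Agent.R279.PC
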