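import Pool.Agent.R279.PC.Leaf

/-!
# The family of leaves and the flux
-/

namespace Pool.Agent.R279.PC

open Real Set MeasureTheory Filter Topology

/-- A smooth family of leaves `Φ c`, `0 < c ≤ 1`, with its first derivatives `P = ∂ Φ / ∂ x`,
`Q = ∂ Φ / ∂ c` and the mixed derivative `R`. -/
structure Fam (H : ℕ → ℝ → ℝ) (Φ P Q R : ℝ → ℝ → ℝ) : Prop where
  tot : ∀ c x, HasFDerivAt (fun p : ℝ × ℝ => Φ p.1 p.2)
    (Q c x • ContinuousLinearMap.fst ℝ ℝ ℝ + P c x • ContinuousLinearMap.snd ℝ ℝ ℝ) (c, x)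
  dPc : ∀ c x, HasDerivAt (fun c => P c x) (R c x) c
  dQx : ∀ c x, HasDerivAt (Q c) (R c x) x
  cP : Continuous (fun p : ℝ × ℝ => P p.1 p.2)
  cQ : Continuous (fun p : ℝ × ℝ => Q p.1 p.2)
  cR : Continuous (fun p : ℝ × ℝ => R p.1 p.2)
  jet : Jet H
  leaf : ∀ c ∈ Ioc (0 : ℝ) 1, Leaf H (Φ c) (P c)
  Qpos : ∀ c ∈ Ioc (0 : ℝ) 1, ∀ x, 0 < Q c x
  Qper : ∀ c ∈ Ioc (0 : ℝ) 1, ∀ x, Q c (x + 2 * π) = Q c x

variable {H : ℕ → ℝ → ℝ} {Φ P Q R : ℝ → ℝ → ℝ}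

theorem Fam.cΦ (F : Fam H Φ P Q R) : Continuous (fun p : ℝ × ℝ => Φ p.1 p.2) :=
  continuous_iff_continuousAt.2 fun p => (F.tot p.1 p.2).continuousAt

theorem Fam.chain (F : Fam H Φ P Q R) {X Y : ℝ → ℝ} {X' Y' t : ℝ} (hX : HasDerivAt X X' t)
    (hY : HasDerivAt Y Y' t) :
    HasDerivAt (fun t => Φ (X t) (Y t)) (Q (X t) (Y t) * X' + P (X t) (Y t) * Y') t := by
  have h := HasFDerivAt.comp_hasDerivAt (l := fun p : ℝ × ℝ => Φ p.1 p.2)
    (f := fun t => (X t, Y t)) t (F.tot (X t) (Y t)) (hX.prodMk hY)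
  have h2 : (fun p : ℝ × ℝ => Φ p.1 p.2) ∘ (fun t => (X t, Y t)) = fun t => Φ (X t) (Y t) := rfl
  rw [h2] at h
  refine h.congr_deriv ?_
  simp

theorem Fam.dx (F : Fam H Φ P Q R) (c x : ℝ) : HasDerivAt (Φ c) (P c x) x := by
  simpa using F.chain (hasDerivAt_const x c) (hasDerivAt_id x)

theorem Fam.dc (F : Fam H Φ P Q R) (c x : ℝ) : HasDerivAt (fun c => Φ c x) (Q c x) c := by
  simpa using F.chain (hasDerivAt_id c) (hasDerivAt_const c x)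

/-- The density. -/
noncomputable def rho (Φ Q : ℝ → ℝ → ℝ) (c x : ℝ) : ℝ := Q c x * am (Φ c x - x)

theorem Fam.invariant (F : Fam H Φ P Q R) {c : ℝ} (hc : c ∈ Ioo (0 : ℝ) 1) (x : ℝ) :
    rho Φ Q c (Φ c x) * P c x = rho Φ Q c x := by
  have hc' : c ∈ Ioc (0 : ℝ) 1 := ⟨hc.1, hc.2.le⟩
  have L := F.leaf c hc'
  have hy := F.dc c x
  have hz := F.chain (hasDerivAt_id c) hy
  have h1 := (der_ct hy hz (L.sin_ne (Φ c x))).sub (der_ct (hasDerivAt_const c x) hy (L.sin_ne x))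
  have h0 := (L.H_pos (Φ c x)).ne'
  have h2 := ((der_H F.jet 1 hy).div (der_H F.jet 0 hy) h0).neg
  have h3 : (fun c => ct (Φ (id c) (Φ c x) - Φ c x)) - (fun c => ct (Φ c x - x))
      =ᶠ[𝓝 c] -((fun t => H 1 (Φ t x)) / fun t => H 0 (Φ t x)) := by
    filter_upwards [Ioo_mem_nhds hc.1 hc.2] with t ht
    exact (F.leaf t ⟨ht.1, ht.2.le⟩).el x
  have h4 := h1.unique (h2.congr_of_eventuallyEq h3)
  have h5 := (L.pos x).ne'
  have h6 := L.riccati F.jet x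
  simp only [id, zero_add, Nat.reduceAdd, mul_one, zero_sub] at h4
  unfold rho
  field_simp at h4 h6 ⊢
  have h7 : H 0 (Φ c x) ^ 2 ≠ 0 := pow_ne_zero 2 h0
  apply mul_left_cancel₀ h7
  linear_combination Q c x * h6 - P c x * h4

/-- The flux integrand. -/
noncomputable def flx (H : ℕ → ℝ → ℝ) (Φ P : ℝ → ℝ → ℝ) (c x : ℝ) : ℝ :=
  1 / 2 * (nn H x (Φ c x) * am (Φ c x - x)) * (psp H x (Φ c x) - psi H x (Φ c x) * P c x)

/-- Its `c`-derivative. -/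
noncomputable def flxC (H : ℕ → ℝ → ℝ) (Φ P Q R : ℝ → ℝ → ℝ) (c x : ℝ) : ℝ :=
  1 / 2 * ((nny H x (Φ c x) * am (Φ c x - x)
        - nn H x (Φ c x) * (ct (Φ c x - x) * am (Φ c x - x))) * Q c x)
      * (psp H x (Φ c x) - psi H x (Φ c x) * P c x)
    + 1 / 2 * (nn H x (Φ c x) * am (Φ c x - x))
      * ((H 1 (Φ c x) * ct (Φ c x - x) - H 0 (Φ c x) * am (Φ c x - x) - H 2 (Φ c x) / 2) * Q c x
        + H 0 x * am (Φ c x - x) * Q c x * P c x - psi H x (Φ c x) * R c x)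

theorem Fam.dflx (F : Fam H Φ P Q R) {c : ℝ} (hc : c ∈ Ioc (0 : ℝ) 1) (x : ℝ) :
    HasDerivAt (fun c => flx H Φ P c x) (flxC H Φ P Q R c x) c := by
  have hs := (F.leaf c hc).sin_ne x
  have hX := hasDerivAt_const c x
  have hY := F.dc c x
  have h := (((der_nn F.jet hX hY hs).mul (der_am hX hY hs)).const_mul (1 / 2)).mul
    ((der_psp F.jet hX hY hs).sub ((der_psi F.jet hX hY hs).mul (F.dPc c x)))
  refine h.congr_deriv ?_
  unfold flxC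
  simp only [Pi.mul_apply, Pi.sub_apply]
  ring

/-- The auxiliary function in the integration by parts. -/
noncomputable def aux (H : ℕ → ℝ → ℝ) (Φ Q : ℝ → ℝ → ℝ) (c x : ℝ) : ℝ :=
  1 / 2 * (nn H x (Φ c x) * am (Φ c x - x)) * (psi H x (Φ c x) * Q c x)

/-- The nonnegative integrand. -/
noncomputable def pst (H : ℕ → ℝ → ℝ) (Φ P Q : ℝ → ℝ → ℝ) (c x : ℝ) : ℝ :=
  rho Φ Q c x * (am (Φ c x - x) * (psi H x (Φ c x) * P c x - psp H x (Φ c x)) ^ 2 / P c x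
    + 3 / 4 * nn H x (Φ c x) ^ 2)

theorem Fam.daux (F : Fam H Φ P Q R) {c : ℝ} (hc : c ∈ Ioc (0 : ℝ) 1) (x : ℝ) :
    HasDerivAt (aux H Φ Q c) (pst H Φ P Q c x + rho Φ Q c x * F1 H (Φ c) (P c) x
      - rho Φ Q c x * F1 H (Φ c) (P c) (Φ c x) - flxC H Φ P Q R c x) x := by
  have L := F.leaf c hc
  have hs := L.sin_ne x
  have hX := hasDerivAt_id x
  have hY := F.dx c x
  have h := (((der_nn F.jet hX hY hs).mul (der_am hX hY hs)).const_mul (1 / 2)).mul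
    ((der_psi F.jet hX hY hs).mul (F.dQx c x))
  refine h.congr_deriv ?_
  have h1 := L.hopf F.jet x
  have h2 := div_identity (H := H) x (Φ c x) hs
  unfold pst flxC rho
  simp only [Pi.mul_apply, id]
  linear_combination Q c x * h2 + Q c x * am (Φ c x - x) * h1

end Pool.Agent.R279.PC
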