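import Pool.Agent.R279.PC.Geom

/-!
# The rigidity theorem
-/

namespace Pool.Agent.R279.PC

open Real Set MeasureTheory Filter Topology
open scoped ContDiff

variable {Φ : ℝ → ℝ → ℝ}

/-- The data needed in the geometric part. -/
structure Dat (Φ : ℝ → ℝ → ℝ) (H0 H1 D : ℝ → ℝ) (lam : ℝ → ℝ) (S : Matrix (Fin 3) (Fin 3) ℝ) :
    Prop where
  symm : S.IsSymm
  pos : ∀ θ, 0 < H0 θ
  line : ∀ l p q θ : ℝ, conic (S - l • formγ) (p • circ θ + q • circ' θ)
    = H0 θ * p ^ 2 + H1 θ * p * q + (D θ - l) * q ^ 2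
  pol1 : ∀ l p q θ : ℝ, dotProduct (circ θ) ((S - l • formγ).mulVec (p • circ θ + q • circ' θ))
    = H0 θ * p + H1 θ / 2 * q
  pol2 : ∀ l p q θ : ℝ, dotProduct (circ' θ) ((S - l • formγ).mulVec (p • circ θ + q • circ' θ))
    = H1 θ / 2 * p + (D θ - l) * q
  ell : ∀ c ∈ Ioc (0 : ℝ) 1, ∀ θ,
    H0 θ * ct (Φ c θ - θ) ^ 2 + H1 θ * ct (Φ c θ - θ) + D θ = lam c
  el : ∀ c ∈ Ioc (0 : ℝ) 1, ∀ w,
    ct (Φ c (Φ c w) - Φ c w) - ct (Φ c w - w) = -(H1 (Φ c w) / H0 (Φ c w))

theorem exists_dat (F : ProjFoliation Φ) : ∃ H0 H1 D lam S, Dat Φ H0 H1 D lam S := by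
  obtain ⟨m, M, R⟩ := exists_rig F
  obtain ⟨a, b1, b2, b3, b4, h0⟩ := trig_of_ode (jetF F).der R.ode
  have h1 : ∀ x, Hd Φ 1 x
      = -b1 * sin x + b2 * cos x - 2 * b3 * sin (2 * x) + 2 * b4 * cos (2 * x) := by
    intro x
    have e1 := (jetF F).der 0 x
    rw [show Hd Φ 0 = fun x => a + b1 * cos x + b2 * sin x + b3 * cos (2 * x)
      + b4 * sin (2 * x) from funext h0] at e1
    have e2 := (((((hasDerivAt_const x a).add ((hasDerivAt_cos x).const_mul b1)).add
      ((hasDerivAt_sin x).const_mul b2)).add ((der_cosk 2 x).const_mul b3)).add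
      ((der_sink 2 x).const_mul b4))
    have e3 := e1.unique e2
    rw [zero_add] at e3
    rw [e3]
    ring
  have h2 : ∀ x, Hd Φ 2 x
      = -b1 * cos x - b2 * sin x - 4 * b3 * cos (2 * x) - 4 * b4 * sin (2 * x) := by
    intro x
    have e1 := (jetF F).der 1 x
    rw [show Hd Φ 1 = fun x => -b1 * sin x + b2 * cos x - 2 * b3 * sin (2 * x)
      + 2 * b4 * cos (2 * x) from funext h1] at e1
    have e2 := (((((hasDerivAt_sin x).const_mul (-b1)).add
      ((hasDerivAt_cos x).const_mul b2)).sub ((der_sink 2 x).const_mul (2 * b3))).add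
      ((der_cosk 2 x).const_mul (2 * b4)))
    have e3 := e1.unique e2
    rw [show 1 + 1 = 2 from rfl] at e3
    rw [e3]
    ring
  refine ⟨Hd Φ 0, Hd Φ 1, fun θ => (Hd Φ 0 θ + Hd Φ 2 θ) / 3,
    fun c => ell (Hd Φ) 0 (Φ c 0), SM a b1 b2 b3 b4, SM_symm _ _ _ _ _, ?_, ?_, ?_, ?_, ?_, ?_⟩
  · exact (R.fam.leaf 1 ⟨one_pos, le_rfl⟩).H_pos
  · intro l p q θ
    rw [conic_line, h0, h1, h2]
    ring
  · intro l p q θ
    rw [polar1, h0, h1]
  · intro l p q θ
    rw [polar2, h0, h1, h2]
    ring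
  · intro c hc θ
    exact R.ell_const' hc θ
  · intro c hc w
    exact el_eq F hc w

variable {H0 H1 D lam : ℝ → ℝ} {S : Matrix (Fin 3) (Fin 3) ℝ}

theorem symm_sub (hS : S.IsSymm) (l : ℝ) : (S - l • formγ).IsSymm := by
  have h : formγ.IsSymm := by
    ext i j
    fin_cases i <;> fin_cases j <;> simp [formγ]
  exact hS.sub (h.smul l)

theorem Dat.circ_pos (T : Dat Φ H0 H1 D lam S) (l θ : ℝ) :
    conic (S - l • formγ) (circ θ) = H0 θ := by
  have h := T.line l 1 0 θ
  simpa using h

/-- The two points of a leaf on a tangent line. -/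
theorem two_points (F : ProjFoliation Φ) {c : ℝ} (hc : c ∈ Ioc (0 : ℝ) 1) (θ : ℝ) :
    ∃ w, Φ c w = θ ∧ 0 < ct (Φ c θ - θ) + ct (θ - w) ∧ 0 < sin ((θ - w) / 2) := by
  obtain ⟨w, hw⟩ := exists_pre F hc θ
  have g1 := gt_self F hc θ
  have g2 := gt_self F hc w
  have g3 := two_lt F hc w
  have g4 := sin_pos' F hc w
  rw [hw] at g2 g3 g4
  exact ⟨w, hw, ct_add_pos (by linarith) (by linarith) (by linarith), g4⟩

theorem Dat.leaf_on (F : ProjFoliation Φ) (T : Dat Φ H0 H1 D lam S) {c : ℝ}
    (hc : c ∈ Ioc (0 : ℝ) 1) (θ : ℝ) : conic (S - lam c • formγ) (tpt θ (Φ c θ)) = 0 := by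
  rw [tpt_eq, T.line]
  have h1 := T.ell c hc θ
  have h2 := (sin_pos' F hc θ).ne'
  have h3 : cos ((Φ c θ - θ) / 2) = ct (Φ c θ - θ) * sin ((Φ c θ - θ) / 2) := by
    unfold ct
    field_simp
  simp only [tco, Matrix.cons_val_zero, Matrix.cons_val_one]
  rw [h3]
  linear_combination sin ((Φ c θ - θ) / 2) ^ 2 * h1

theorem tpt_out (F : ProjFoliation Φ) {c : ℝ} (hc : c ∈ Ioc (0 : ℝ) 1) (θ : ℝ) :
    0 < conic formγ (tpt θ (Φ c θ)) := by
  rw [tpt_eq, formγ_line]
  exact pow_pos (sin_pos' F hc θ) 2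

theorem Dat.det_ne (F : ProjFoliation Φ) (T : Dat Φ H0 H1 D lam S) {c : ℝ}
    (hc : c ∈ Ioc (0 : ℝ) 1) : (S - lam c • formγ).det ≠ 0 := by
  intro hdet
  obtain ⟨V, hV0, hV⟩ := Matrix.exists_mulVec_eq_zero_iff.2 hdet
  rcases le_or_gt 0 (conic formγ V) with h | h
  · obtain ⟨θ, q, hq⟩ := exists_tangent hV0 h
    obtain ⟨w, hw, hpos, _⟩ := two_points F hc θ
    have e1 := T.pol1 (lam c) (V 2) q θ
    have e2 := T.pol2 (lam c) (V 2) q θ
    rw [← hq, hV, dotProduct_zero] at e1 e2
    have e3 := T.ell c hc θ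
    have e4 := T.el c hc w
    rw [hw] at e4
    have hp := T.pos θ
    have hp' := hp.ne'
    have e5 : H1 θ = H0 θ * (ct (θ - w) - ct (Φ c θ - θ)) := by
      field_simp at e4
      linear_combination e4
    set K := ct (Φ c θ - θ)
    set W := ct (θ - w)
    rw [e5] at e1 e2 e3
    have e6 : V 2 = -(W - K) / 2 * q := by
      have : H0 θ * (V 2 + (W - K) / 2 * q) = 0 := by linear_combination -e1
      have := (mul_eq_zero.1 this).resolve_left hp'
      linarith
    rw [e6] at e2
    have e7 : H0 θ * (K + W) ^ 2 / 4 * q = 0 := by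
      linear_combination q * e3 + e2
    have e8 : q = 0 := (mul_eq_zero.1 e7).resolve_left (by positivity)
    rw [e8, mul_zero] at e6
    apply hV0
    rw [hq, e6, e8, zero_smul, zero_smul, add_zero]
  · set P := tpt 0 (Φ c 0) with hP
    have hout := tpt_out F hc 0
    have hon := T.leaf_on F hc 0
    have hs := symm_sub T.symm (lam c)
    have hsγ : formγ.IsSymm := by
      ext i j
      fin_cases i <;> fin_cases j <;> simp [formγ]
    rw [← hP] at hout hon
    obtain ⟨t, ht⟩ : ∃ t : ℝ, conic formγ (P + t • V) = 0 := by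
      have hac : conic formγ V * conic formγ P < 0 := mul_neg_of_neg_of_pos h hout
      have hr := quad_root (a := conic formγ V) (b := dotProduct P (formγ.mulVec V))
        (c := conic formγ P) h.ne (by nlinarith [sq_nonneg (dotProduct P (formγ.mulVec V))])
      refine ⟨(-dotProduct P (formγ.mulVec V) - √(dotProduct P (formγ.mulVec V) ^ 2
        - conic formγ V * conic formγ P)) / conic formγ V, ?_⟩
      rw [conic_add formγ hsγ]
      linear_combination hr
    have hW : P + t • V ≠ 0 := by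
      intro h0
      have h1 : P = (-t) • V := by
        rw [neg_smul]
        exact eq_neg_of_add_eq_zero_left h0
      have h2 : conic formγ P = t ^ 2 * conic formγ V := by
        rw [h1]
        simp only [conic, Matrix.mulVec_smul, dotProduct_smul, smul_dotProduct, smul_eq_mul]
        ring
      nlinarith [sq_nonneg t]
    obtain ⟨φ, hφ, hφ2⟩ := exists_circle hW ht
    have h3 : conic (S - lam c • formγ) (P + t • V) = 0 := by
      rw [conic_add _ hs, hon, hV, dotProduct_zero]
      unfold conic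
      rw [hV, dotProduct_zero]
      ring
    have h4 := T.line (lam c) ((P + t • V) 2) 0 φ
    rw [zero_smul, add_zero, ← hφ, h3] at h4
    have h5 := T.pos φ
    have h6 : 0 < (P + t • V) 2 ^ 2 := by positivity
    nlinarith

/-- Points on the conic are on the leaf. -/
theorem Dat.on_leaf (F : ProjFoliation Φ) (T : Dat Φ H0 H1 D lam S) {c : ℝ}
    (hc : c ∈ Ioc (0 : ℝ) 1) {X : Fin 3 → ℝ} (hX : X ≠ 0)
    (h : conic (S - lam c • formγ) X = 0) : ∃ θ k : ℝ, k ≠ 0 ∧ X = k • tpt θ (Φ c θ) := by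
  rcases le_or_gt 0 (conic formγ X) with h' | h'
  · obtain ⟨θ, q, hq⟩ := exists_tangent hX h'
    obtain ⟨w, hw, hpos, hsw⟩ := two_points F hc θ
    have e1 := T.line (lam c) (X 2) q θ
    rw [← hq, h] at e1
    have e3 := T.ell c hc θ
    have e4 := T.el c hc w
    rw [hw] at e4
    have hp := T.pos θ
    have hp' := hp.ne'
    have e5 : H1 θ = H0 θ * (ct (θ - w) - ct (Φ c θ - θ)) := by
      field_simp at e4
      linear_combination e4
    have hs1 := sin_pos' F hc θ
    have hs1' := hs1.ne'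
    have hs2' := hsw.ne'
    have hq0 : q ≠ 0 := by
      intro hq0
      rw [hq0] at e1 hq
      have h2 : X 2 = 0 := by
        have : H0 θ * X 2 ^ 2 = 0 := by linear_combination -e1
        exact pow_eq_zero_iff two_ne_zero |>.1 ((mul_eq_zero.1 this).resolve_left hp')
      rw [h2, zero_smul, zero_smul, add_zero] at hq
      exact hX hq
    obtain ⟨K, hK⟩ : ∃ K, K = ct (Φ c θ - θ) := ⟨_, rfl⟩
    obtain ⟨W, hW⟩ : ∃ W, W = ct (θ - w) := ⟨_, rfl⟩
    rw [← hK] at e3 e5
    rw [← hW] at e5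
    rw [e5] at e1 e3
    have e6 : H0 θ * ((X 2 - K * q) * (X 2 + W * q)) = 0 := by
      linear_combination (-q ^ 2) * e3 - e1
    rcases mul_eq_zero.1 ((mul_eq_zero.1 e6).resolve_left hp') with e7 | e7
    · refine ⟨θ, q / sin ((Φ c θ - θ) / 2), div_ne_zero hq0 hs1', ?_⟩
      rw [tpt_eq, smul_add, smul_smul, smul_smul]
      simp only [tco, Matrix.cons_val_zero, Matrix.cons_val_one]
      have e8 : X 2 = K * q := by linarith
      have e9 : q / sin ((Φ c θ - θ) / 2) * cos ((Φ c θ - θ) / 2) = X 2 := by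
        rw [e8, hK]
        unfold ct
        field_simp
      have e10 : q / sin ((Φ c θ - θ) / 2) * sin ((Φ c θ - θ) / 2) = q := by field_simp
      rw [e9, e10]
      exact hq
    · have hs3 : sin ((w - θ) / 2) = -sin ((θ - w) / 2) := by
        rw [← sin_neg]
        congr 1
        ring
      have hc3 : cos ((w - θ) / 2) = cos ((θ - w) / 2) := by
        rw [← cos_neg]
        congr 1
        ring
      refine ⟨w, -(q / sin ((θ - w) / 2)), neg_ne_zero.2 (div_ne_zero hq0 hs2'), ?_⟩
      rw [hw, tpt_comm, tpt_eq, smul_add, smul_smul, smul_smul]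
      simp only [tco, Matrix.cons_val_zero, Matrix.cons_val_one]
      rw [hs3, hc3]
      have e8 : X 2 = -W * q := by linarith
      have e9 : -(q / sin ((θ - w) / 2)) * cos ((θ - w) / 2) = X 2 := by
        rw [e8, hW]
        unfold ct
        field_simp
      have e10 : -(q / sin ((θ - w) / 2)) * -sin ((θ - w) / 2) = q := by field_simp
      rw [e9, e10]
      exact hq
  · exfalso
    set P := tpt 0 (Φ c 0) with hP
    have hout := tpt_out F hc 0
    have hon := T.leaf_on F hc 0
    rw [← hP] at hout hon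
    have hs := symm_sub T.symm (lam c)
    have hsγ : formγ.IsSymm := by
      ext i j
      fin_cases i <;> fin_cases j <;> simp [formγ]
    have hval : ∀ t, conic formγ (X + t • P) = 0 →
        0 < t * dotProduct X ((S - lam c • formγ).mulVec P) := by
      intro t ht
      have hW : X + t • P ≠ 0 := by
        intro h0
        have h1 : X = (-t) • P := by
          rw [neg_smul]
          exact eq_neg_of_add_eq_zero_left h0
        have h2 : conic formγ X = t ^ 2 * conic formγ P := by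
          rw [h1]
          simp only [conic, Matrix.mulVec_smul, dotProduct_smul, smul_dotProduct, smul_eq_mul]
          ring
        nlinarith [sq_nonneg t]
      obtain ⟨φ, hφ, hφ2⟩ := exists_circle hW ht
      have h4 := T.line (lam c) ((X + t • P) 2) 0 φ
      rw [zero_smul, add_zero, ← hφ, conic_add _ hs, h, hon] at h4
      have h5 := T.pos φ
      have h6 : 0 < (X + t • P) 2 ^ 2 := by positivity
      nlinarith
    set β := dotProduct X (formγ.mulVec P)
    have ha : conic formγ P ≠ 0 := hout.ne'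
    have hd : 0 < β ^ 2 - conic formγ P * conic formγ X := by nlinarith [sq_nonneg β]
    have r1 := quad_root (a := conic formγ P) (b := β) (c := conic formγ X) ha hd.le
    have hsq := sq_sqrt hd.le
    have hsq0 : 0 < √(β ^ 2 - conic formγ P * conic formγ X) := sqrt_pos.2 hd
    have r2 : conic formγ P * ((-β + √(β ^ 2 - conic formγ P * conic formγ X)) / conic formγ P) ^ 2
        + 2 * β * ((-β + √(β ^ 2 - conic formγ P * conic formγ X)) / conic formγ P)
        + conic formγ X = 0 := by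
      field_simp
      linear_combination hsq
    have v1 := hval ((-β - √(β ^ 2 - conic formγ P * conic formγ X)) / conic formγ P)
      (by rw [conic_add formγ hsγ]; linear_combination r1)
    have v2 := hval ((-β + √(β ^ 2 - conic formγ P * conic formγ X)) / conic formγ P)
      (by rw [conic_add formγ hsγ]; linear_combination r2)
    have hlt : |β| < √(β ^ 2 - conic formγ P * conic formγ X) := by
      rw [lt_sqrt (abs_nonneg _), sq_abs]
      nlinarith
    have n1 : (-β - √(β ^ 2 - conic formγ P * conic formγ X)) / conic formγ P < 0 := by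
      apply div_neg_of_neg_of_pos _ hout
      have := neg_abs_le β
      linarith
    have n2 : 0 < (-β + √(β ^ 2 - conic formγ P * conic formγ X)) / conic formγ P := by
      apply div_pos _ hout
      have := le_abs_self β
      linarith
    have w1 : dotProduct X ((S - lam c • formγ).mulVec P) < 0 := by
      by_contra hn
      exact absurd v1 (not_lt.2 (mul_nonpos_of_nonpos_of_nonneg n1.le (not_lt.1 hn)))
    exact absurd v2 (not_lt.2 (mul_nonpos_of_nonneg_of_nonpos n2.le w1.le))

/-- **Rigidity.** The leaves are exactly the real loci of nondegenerate conics of a pencil which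
contains `γ`. -/
theorem rigidity (F : ProjFoliation Φ) :
    ∃ (S : Matrix (Fin 3) (Fin 3) ℝ) (lam : ℝ → ℝ), S.IsSymm ∧ (∀ θ, 0 < conic S (circ θ)) ∧
      ∀ c ∈ Ioc (0 : ℝ) 1, (S - lam c • formγ).det ≠ 0 ∧ ∀ X : Fin 3 → ℝ, X ≠ 0 →
        (conic (S - lam c • formγ) X = 0 ↔ ∃ θ k : ℝ, k ≠ 0 ∧ X = k • tpt θ (Φ c θ)) := by
  obtain ⟨H0, H1, D, lam, S, T⟩ := exists_dat F
  refine ⟨S, lam, T.symm, fun θ => ?_, fun c hc => ⟨T.det_ne F hc, fun X hX => ⟨fun h =>
    T.on_leaf F hc hX h, ?_⟩⟩⟩
  · have h := T.circ_pos 0 θ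
    rw [zero_smul, sub_zero] at h
    rw [h]
    exact T.pos θ
  · rintro ⟨θ, k, _, rfl⟩
    have h := T.leaf_on F hc θ
    unfold conic at h ⊢
    rw [Matrix.mulVec_smul, dotProduct_smul, smul_dotProduct, h, smul_zero, smul_zero]

end Pool.Agent.R279.PC
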