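import Pool.Agent.R279.PC.Fam

/-!
# The flux is nondecreasing in the leaf parameter
-/

namespace Pool.Agent.R279.PC

open Real Set MeasureTheory Filter Topology

variable {H : ℕ → ℝ → ℝ} {Φ P Q R : ℝ → ℝ → ℝ}

/-- The parameter domain. -/
def dom : Set (ℝ × ℝ) := Ioc (0 : ℝ) 1 ×ˢ univ

section cont

variable (F : Fam H Φ P Q R)

include F

theorem Fam.c_ct : ContinuousOn (fun p : ℝ × ℝ => ct (Φ p.1 p.2 - p.2)) dom := by
  have h := F.cΦ
  unfold ct
  exact ContinuousOn.div (by fun_prop) (by fun_prop) (fun p hp => (F.leaf p.1 hp.1).sin_ne p.2)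

theorem Fam.c_am : ContinuousOn (fun p : ℝ × ℝ => am (Φ p.1 p.2 - p.2)) dom := by
  have h := F.cΦ
  unfold am
  exact ContinuousOn.div (by fun_prop) (by fun_prop)
    (fun p hp => mul_ne_zero two_ne_zero (pow_ne_zero 2 ((F.leaf p.1 hp.1).sin_ne p.2)))

theorem Fam.c_H (k : ℕ) : ContinuousOn (fun p : ℝ × ℝ => H k p.2) dom :=
  ((F.jet.cont k).comp continuous_snd).continuousOn

theorem Fam.c_HΦ (k : ℕ) : ContinuousOn (fun p : ℝ × ℝ => H k (Φ p.1 p.2)) dom :=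
  ((F.jet.cont k).comp F.cΦ).continuousOn

omit F in
theorem gen_psi {S : Set (ℝ × ℝ)} {a0 a1 C : ℝ × ℝ → ℝ} (h0 : ContinuousOn a0 S)
    (h1 : ContinuousOn a1 S) (hC : ContinuousOn C S) :
    ContinuousOn (fun p => a0 p * C p + a1 p / 2) S := by fun_prop

omit F in
theorem gen_psp {S : Set (ℝ × ℝ)} {a0 a1 C : ℝ × ℝ → ℝ} (h0 : ContinuousOn a0 S)
    (h1 : ContinuousOn a1 S) (hC : ContinuousOn C S) :
    ContinuousOn (fun p => a0 p * C p - a1 p / 2) S := by fun_prop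

omit F in
theorem gen_nn {S : Set (ℝ × ℝ)} {a0 a1 a2 b0 b1 b2 C : ℝ × ℝ → ℝ} (h0 : ContinuousOn a0 S)
    (h1 : ContinuousOn a1 S) (h2 : ContinuousOn a2 S) (k0 : ContinuousOn b0 S)
    (k1 : ContinuousOn b1 S) (k2 : ContinuousOn b2 S) (hC : ContinuousOn C S) :
    ContinuousOn (fun p => (a0 p - b0 p) * C p ^ 2 + (a1 p + b1 p) * C p
      + ((a0 p + a2 p) / 3 - (b0 p + b2 p) / 3)) S := by fun_prop

omit F in
theorem gen_nny {S : Set (ℝ × ℝ)} {a0 a1 a2 b0 b1 b2 b3 C A : ℝ × ℝ → ℝ}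
    (h0 : ContinuousOn a0 S)
    (h1 : ContinuousOn a1 S) (h2 : ContinuousOn a2 S) (k0 : ContinuousOn b0 S)
    (k1 : ContinuousOn b1 S) (k2 : ContinuousOn b2 S) (k3 : ContinuousOn b3 S)
    (hC : ContinuousOn C S) (hA : ContinuousOn A S) :
    ContinuousOn (fun p => -b1 p * C p ^ 2 - (a0 p - b0 p) * (2 * C p * A p)
    + b2 p * C p - (a1 p + b1 p) * A p - (b1 p + b3 p) / 3) S := by fun_prop

theorem Fam.c_psi : ContinuousOn (fun p : ℝ × ℝ => psi H p.2 (Φ p.1 p.2)) dom :=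
  gen_psi (F.c_H 0) (F.c_H 1) F.c_ct

theorem Fam.c_psp : ContinuousOn (fun p : ℝ × ℝ => psp H p.2 (Φ p.1 p.2)) dom :=
  gen_psp (F.c_HΦ 0) (F.c_HΦ 1) F.c_ct

theorem Fam.c_nn : ContinuousOn (fun p : ℝ × ℝ => nn H p.2 (Φ p.1 p.2)) dom :=
  gen_nn (F.c_H 0) (F.c_H 1) (F.c_H 2) (F.c_HΦ 0) (F.c_HΦ 1) (F.c_HΦ 2) F.c_ct

theorem Fam.c_nny : ContinuousOn (fun p : ℝ × ℝ => nny H p.2 (Φ p.1 p.2)) dom :=
  gen_nny (F.c_H 0) (F.c_H 1) (F.c_H 2) (F.c_HΦ 0) (F.c_HΦ 1) (F.c_HΦ 2) (F.c_HΦ 3) F.c_ct F.c_am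

theorem Fam.c_flx : ContinuousOn (fun p : ℝ × ℝ => flx H Φ P p.1 p.2) dom := by
  have h1 := F.c_psi
  have h2 := F.c_psp
  have h3 := F.c_nn
  have h4 := F.c_am
  have h5 := F.cP.continuousOn (s := dom)
  exact (continuousOn_const.mul (h3.mul h4)).mul (h2.sub (h1.mul h5))

theorem Fam.c_aux : ContinuousOn (fun p : ℝ × ℝ => aux H Φ Q p.1 p.2) dom := by
  have h1 := F.c_psi
  have h3 := F.c_nn
  have h4 := F.c_am
  have h5 := F.cQ.continuousOn (s := dom)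
  exact (continuousOn_const.mul (h3.mul h4)).mul (h1.mul h5)

theorem Fam.c_flxC : ContinuousOn (fun p : ℝ × ℝ => flxC H Φ P Q R p.1 p.2) dom := by
  have h1 := F.c_psi
  have h2 := F.c_psp
  have h3 := F.c_nn
  have h4 := F.c_am
  have h5 := F.cP.continuousOn (s := dom)
  have h6 := F.cQ.continuousOn (s := dom)
  have h7 := F.cR.continuousOn (s := dom)
  have h8 := F.c_nny
  have h9 := F.c_ct
  exact ((continuousOn_const.mul (((h8.mul h4).sub (h3.mul (h9.mul h4))).mul h6)).mul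
    (h2.sub (h1.mul h5))).add ((continuousOn_const.mul (h3.mul h4)).mul
    ((((((F.c_HΦ 1).mul h9).sub ((F.c_HΦ 0).mul h4)).sub ((F.c_HΦ 2).div_const 2)).mul h6).add
      ((((F.c_H 0).mul h4).mul h6).mul h5) |>.sub (h1.mul h7)))

theorem Fam.c_rho : ContinuousOn (fun p : ℝ × ℝ => rho Φ Q p.1 p.2) dom :=
  (F.cQ.continuousOn (s := dom)).mul F.c_am

theorem Fam.c_pst : ContinuousOn (fun p : ℝ × ℝ => pst H Φ P Q p.1 p.2) dom := by
  have h1 := F.c_psi
  have h2 := F.c_psp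
  have h3 := F.c_nn
  have h4 := F.c_am
  have h5 := F.cP.continuousOn (s := dom)
  exact F.c_rho.mul (((h4.mul (((h1.mul h5).sub h2).pow 2)).div h5
    (fun p hp => ((F.leaf p.1 hp.1).pos p.2).ne')).add (continuousOn_const.mul (h3.pow 2)))

omit F in
theorem slice {G : ℝ → ℝ → ℝ} (h : ContinuousOn (fun p : ℝ × ℝ => G p.1 p.2) dom) {c : ℝ}
    (hc : c ∈ Ioc (0 : ℝ) 1) : Continuous (G c) :=
  h.comp_continuous (f := fun x => (c, x)) (by fun_prop) (fun x => ⟨hc, mem_univ _⟩)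

omit F in
theorem gen_F1 {a0 a1 a2 a3 C A p : ℝ → ℝ} (h0 : Continuous a0)
    (h1 : Continuous a1) (h2 : Continuous a2) (h3 : Continuous a3)
    (hC : Continuous C) (hA : Continuous A) (hp : Continuous p) :
    Continuous (fun x => A x * (a0 x * C x + a1 x / 2) ^ 2 * (1 - p x)
    + (a0 x * a1 x / 2 * C x ^ 3 + (a1 x ^ 2 / 4 + a0 x * a2 x / 2) * C x ^ 2
    + (a1 x * a2 x / 4 + (a1 x + a3 x) / 3 * a0 x / 2) * C x
    + (a1 x + a3 x) / 3 * a1 x / 4)) := by fun_prop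

theorem Fam.c_F1 {c : ℝ} (hc : c ∈ Ioc (0 : ℝ) 1) : Continuous (F1 H (Φ c) (P c)) :=
  gen_F1 (F.jet.cont 0) (F.jet.cont 1) (F.jet.cont 2) (F.jet.cont 3)
    (slice (G := fun c x => ct (Φ c x - x)) F.c_ct hc)
    (slice (G := fun c x => am (Φ c x - x)) F.c_am hc) (F.leaf c hc).cont

end cont

section per

variable (F : Fam H Φ P Q R) {c : ℝ} (hc : c ∈ Ioc (0 : ℝ) 1) (x : ℝ)

include F hc

theorem Fam.per_sub : Φ c (x + 2 * π) - (x + 2 * π) = Φ c x - x := by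
  rw [(F.leaf c hc).per]
  ring

theorem Fam.per_P : P c (x + 2 * π) = P c x := by
  have h1 : HasDerivAt (fun x => Φ c (x + 2 * π)) (P c (x + 2 * π)) x :=
    (F.dx c (x + 2 * π)).comp_add_const x (2 * π)
  have h2 : (fun x => Φ c (x + 2 * π)) = fun x => Φ c x + 2 * π := funext (F.leaf c hc).per
  rw [h2] at h1
  exact h1.unique ((F.dx c x).add_const _)

theorem Fam.per_psi : psi H (x + 2 * π) (Φ c (x + 2 * π)) = psi H x (Φ c x) := by
  unfold psi
  rw [F.per_sub hc, F.jet.per, F.jet.per]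

theorem Fam.per_psp : psp H (x + 2 * π) (Φ c (x + 2 * π)) = psp H x (Φ c x) := by
  unfold psp
  rw [F.per_sub hc, (F.leaf c hc).per, F.jet.per, F.jet.per]

theorem Fam.per_nn : nn H (x + 2 * π) (Φ c (x + 2 * π)) = nn H x (Φ c x) := by
  unfold nn
  rw [F.per_sub hc, (F.leaf c hc).per]
  simp only [F.jet.per]

theorem Fam.per_aux : aux H Φ Q c (x + 2 * π) = aux H Φ Q c x := by
  unfold aux
  rw [F.per_nn hc, F.per_sub hc, F.per_psi hc, F.Qper c hc]

theorem Fam.per_rho : rho Φ Q c (x + 2 * π) = rho Φ Q c x := by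
  unfold rho
  rw [F.per_sub hc, F.Qper c hc]

theorem Fam.per_F1 : F1 H (Φ c) (P c) (x + 2 * π) = F1 H (Φ c) (P c) x := by
  unfold F1 bx
  rw [F.per_sub hc, F.per_psi hc, F.per_P hc]
  simp only [F.jet.per]

theorem Fam.per_flx : flx H Φ P c (x + 2 * π) = flx H Φ P c x := by
  unfold flx
  rw [F.per_nn hc, F.per_sub hc, F.per_psi hc, F.per_psp hc, F.per_P hc]

end per

/-- The flux through the leaf `c`. -/
noncomputable def J (H : ℕ → ℝ → ℝ) (Φ P : ℝ → ℝ → ℝ) (c : ℝ) : ℝ :=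
  ∫ x in (0 : ℝ)..2 * π, flx H Φ P c x

theorem Fam.int_flxC (F : Fam H Φ P Q R) {c : ℝ} (hc : c ∈ Ioo (0 : ℝ) 1) :
    ∫ x in (0 : ℝ)..2 * π, flxC H Φ P Q R c x = ∫ x in (0 : ℝ)..2 * π, pst H Φ P Q c x := by
  have hc' : c ∈ Ioc (0 : ℝ) 1 := ⟨hc.1, hc.2.le⟩
  have c1 : Continuous (flxC H Φ P Q R c) := slice F.c_flxC hc'
  have c2 : Continuous (pst H Φ P Q c) := slice F.c_pst hc'
  have c3 : Continuous (rho Φ Q c) := slice F.c_rho hc'
  have c4 := F.c_F1 hc'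
  have c5 := (F.leaf c hc').contφ
  have h1 := intervalIntegral.integral_eq_sub_of_hasDerivAt (a := 0) (b := 2 * π)
    (fun x _ => F.daux hc' x) (Continuous.intervalIntegrable (by fun_prop) _ _)
  have h2 : aux H Φ Q c (2 * π) = aux H Φ Q c 0 := by simpa using F.per_aux hc' 0
  rw [h2, sub_self, intervalIntegral.integral_sub (Continuous.intervalIntegrable (by fun_prop) _ _)
    (Continuous.intervalIntegrable (by fun_prop) _ _),
    intervalIntegral.integral_sub (Continuous.intervalIntegrable (by fun_prop) _ _)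
    (Continuous.intervalIntegrable (by fun_prop) _ _),
    intervalIntegral.integral_add (Continuous.intervalIntegrable (by fun_prop) _ _)
    (Continuous.intervalIntegrable (by fun_prop) _ _),
    integral_invariant (F.leaf c hc') c4 c3 (F.per_F1 hc') (F.per_rho hc')
      (F.invariant hc)] at h1
  linarith

theorem Fam.dJ (F : Fam H Φ P Q R) {c : ℝ} (hc : c ∈ Ioo (0 : ℝ) 1) :
    HasDerivAt (J H Φ P) (∫ x in (0 : ℝ)..2 * π, pst H Φ P Q c x) c := by
  rw [← F.int_flxC hc]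
  obtain ⟨a, ha0, hac⟩ := exists_between hc.1
  obtain ⟨b, hcb, hb1⟩ := exists_between hc.2
  have hsub : Icc a b ×ˢ uIcc (0 : ℝ) (2 * π) ⊆ dom := fun p hp =>
    ⟨⟨lt_of_lt_of_le ha0 hp.1.1, hp.1.2.trans hb1.le⟩, mem_univ _⟩
  obtain ⟨C, hC⟩ := (isCompact_Icc.prod isCompact_uIcc).exists_bound_of_continuousOn
    (F.c_flxC.mono hsub)
  refine (intervalIntegral.hasDerivAt_integral_of_dominated_loc_of_deriv_le (F := flx H Φ P)
    (F' := flxC H Φ P Q R) (bound := fun _ => C) (s := Ioo a b) (Ioo_mem_nhds hac hcb)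
    ?_ ?_ ?_ ?_ ?_ ?_).2
  · filter_upwards [Ioo_mem_nhds hac hcb] with s hs
    exact (slice F.c_flx ⟨ha0.trans hs.1, (hs.2.trans hb1).le⟩).aestronglyMeasurable
  · exact (slice F.c_flx ⟨hc.1, hc.2.le⟩).intervalIntegrable _ _
  · exact (slice F.c_flxC ⟨hc.1, hc.2.le⟩).aestronglyMeasurable
  · refine Filter.Eventually.of_forall fun t ht s hs => ?_
    exact hC (s, t) ⟨⟨hs.1.le, hs.2.le⟩, uIoc_subset_uIcc ht⟩
  · exact intervalIntegrable_const
  · exact Filter.Eventually.of_forall fun t _ s hs =>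
      F.dflx ⟨ha0.trans hs.1, (hs.2.trans hb1).le⟩ t

theorem Fam.pst_nonneg (F : Fam H Φ P Q R) {c : ℝ} (hc : c ∈ Ioc (0 : ℝ) 1) (x : ℝ) :
    0 ≤ pst H Φ P Q c x := by
  have L := F.leaf c hc
  have h1 := L.pos x
  have h2 := am_pos (L.sin_ne x)
  have h3 := F.Qpos c hc x
  unfold pst rho
  positivity

theorem Fam.contJ (F : Fam H Φ P Q R) : ContinuousOn (J H Φ P) (Ioc 0 1) := by
  rw [continuousOn_iff_continuous_domRestrict]
  have h1 : Continuous (Function.uncurry (fun (t : Ioc (0 : ℝ) 1) (x : ℝ) => flx H Φ P t x)) := by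
    have h2 : Continuous (fun p : (Ioc (0 : ℝ) 1 : Set ℝ) × ℝ => (((p.1 : ℝ), p.2) : ℝ × ℝ)) := by
      fun_prop
    exact F.c_flx.comp_continuous h2 (fun p => ⟨p.1.2, mem_univ _⟩)
  exact intervalIntegral.continuous_parametric_intervalIntegral_of_continuous' h1 0 (2 * π)

theorem Fam.monoJ (F : Fam H Φ P Q R) : MonotoneOn (J H Φ P) (Ioc 0 1) := by
  refine monotoneOn_of_deriv_nonneg (convex_Ioc 0 1) F.contJ ?_ ?_
  · rw [interior_Ioc]
    exact fun c hc => (F.dJ hc).differentiableAt.differentiableWithinAt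
  · rw [interior_Ioc]
    intro c hc
    rw [(F.dJ hc).deriv]
    exact intervalIntegral.integral_nonneg (by positivity)
      (fun x _ => F.pst_nonneg ⟨hc.1, hc.2.le⟩ x)

end Pool.Agent.R279.PC
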