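import Pool.Agent.R279.PC.EL

/-!
# The leaves are the conics of a pencil
-/

namespace Pool.Agent.R279.PC

open Real Set MeasureTheory Filter Topology
open scoped ContDiff

variable {Φ : ℝ → ℝ → ℝ}

theorem famF (F : ProjFoliation Φ) : Fam (Hd Φ) Φ (Pd Φ) (Qd Φ) (Rd Φ) where
  tot := tot_Φ F.smooth
  dPc := d_Pc F.smooth
  dQx := d_Qx F.smooth
  cP := (smP F.smooth).continuous
  cQ := (smQ F.smooth).continuous
  cR := (smR F.smooth).continuous
  jet := jetF F
  leaf c hc :=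
    { der := d_x F.smooth c
      cont := (smP F.smooth).continuous.comp (Continuous.prodMk_right c)
      pos := P_pos F ⟨hc.1.le, hc.2⟩
      per := F.per c ⟨hc.1.le, hc.2⟩
      sin_ne := fun x => (sin_pos' F hc x).ne'
      H_pos := fun x => by
        rw [Hd_zero]
        exact pow_pos (Q_pos F ⟨le_rfl, zero_le_one⟩ x) 2
      el := el_eq F hc }
  Qpos c hc := Q_pos F ⟨hc.1.le, hc.2⟩
  Qper c hc := Q_per F ⟨hc.1.le, hc.2⟩

theorem exists_rig (F : ProjFoliation Φ) :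
    ∃ m M : ℝ, Rig (Hd Φ) Φ (Pd Φ) (Qd Φ) (Rd Φ) m M := by
  obtain ⟨m, M, hm, hM, hb⟩ := exists_bd F
  have h1m : (1 : ℝ) ∈ Ioc (0 : ℝ) 1 := ⟨one_pos, le_rfl⟩
  refine ⟨m, M, famF F, hm, hM, hb, ?_, F.zero⟩
  rcases F.outer with h | h
  · exact tri_flx (jetF F) ((famF F).leaf 1 h1m) h (gt_self F h1m)
  · exact quad_flx (jetF F) ((famF F).leaf 1 h1m) h (gt_self F h1m)

/-- The matrix of the second conic of the pencil. -/
noncomputable def SM (a b1 b2 b3 b4 : ℝ) : Matrix (Fin 3) (Fin 3) ℝ :=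
  !![a / 3 + b3, b4, b1 / 2; b4, a / 3 - b3, b2 / 2; b1 / 2, b2 / 2, 2 * a / 3]

theorem SM_symm (a b1 b2 b3 b4 : ℝ) : (SM a b1 b2 b3 b4).IsSymm := by
  ext i j
  fin_cases i <;> fin_cases j <;> simp [SM]

theorem formγ_line (p q θ : ℝ) : conic formγ (p • circ θ + q • circ' θ) = q ^ 2 := by
  have h := sin_sq_add_cos_sq θ
  simp only [conic, formγ, circ, circ', Matrix.mulVec, dotProduct, Fin.sum_univ_three,
    Matrix.of_apply, Matrix.cons_val', Matrix.cons_val_zero, Matrix.cons_val_one, Matrix.cons_val,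
    Pi.add_apply, Pi.smul_apply, smul_eq_mul, Matrix.cons_val_fin_one]
  linear_combination (p ^ 2 + q ^ 2) * h

section line

variable (a b1 b2 b3 b4 l p q θ : ℝ)

theorem polar1 : dotProduct (circ θ) ((SM a b1 b2 b3 b4 - l • formγ).mulVec
      (p • circ θ + q • circ' θ))
    = (a + b1 * cos θ + b2 * sin θ + b3 * cos (2 * θ) + b4 * sin (2 * θ)) * p
      + (-b1 * sin θ + b2 * cos θ - 2 * b3 * sin (2 * θ) + 2 * b4 * cos (2 * θ)) / 2 * q := by
  have h := sin_sq_add_cos_sq θ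
  rw [cos_two_mul', sin_two_mul]
  simp only [SM, formγ, circ, circ', Matrix.mulVec, dotProduct, Fin.sum_univ_three,
    Matrix.of_apply, Matrix.cons_val', Matrix.cons_val_zero, Matrix.cons_val_one, Matrix.cons_val,
    Pi.add_apply, Pi.smul_apply, smul_eq_mul, Matrix.cons_val_fin_one, Matrix.sub_apply,
    Matrix.smul_apply]
  linear_combination ((a / 3 - l) * p) * h

theorem polar2 : dotProduct (circ' θ) ((SM a b1 b2 b3 b4 - l • formγ).mulVec
      (p • circ θ + q • circ' θ))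
    = (-b1 * sin θ + b2 * cos θ - 2 * b3 * sin (2 * θ) + 2 * b4 * cos (2 * θ)) / 2 * p
      + (a / 3 - b3 * cos (2 * θ) - b4 * sin (2 * θ) - l) * q := by
  have h := sin_sq_add_cos_sq θ
  rw [cos_two_mul', sin_two_mul]
  simp only [SM, formγ, circ, circ', Matrix.mulVec, dotProduct, Fin.sum_univ_three,
    Matrix.of_apply, Matrix.cons_val', Matrix.cons_val_zero, Matrix.cons_val_one, Matrix.cons_val,
    Pi.add_apply, Pi.smul_apply, smul_eq_mul, Matrix.cons_val_fin_one, Matrix.sub_apply,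
    Matrix.smul_apply]
  linear_combination ((a / 3 - l) * q) * h

theorem conic_line : conic (SM a b1 b2 b3 b4 - l • formγ) (p • circ θ + q • circ' θ)
    = (a + b1 * cos θ + b2 * sin θ + b3 * cos (2 * θ) + b4 * sin (2 * θ)) * p ^ 2
      + (-b1 * sin θ + b2 * cos θ - 2 * b3 * sin (2 * θ) + 2 * b4 * cos (2 * θ)) * p * q
      + (a / 3 - b3 * cos (2 * θ) - b4 * sin (2 * θ) - l) * q ^ 2 := by
  unfold conic
  rw [add_dotProduct, smul_dotProduct, smul_dotProduct, polar1, polar2]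
  simp only [smul_eq_mul]
  ring

end line

/-- A point outside or on the circle lies on a tangent line. -/
theorem exists_tangent {X : Fin 3 → ℝ} (hX : X ≠ 0) (h : 0 ≤ conic formγ X) :
    ∃ θ q : ℝ, X = X 2 • circ θ + q • circ' θ := by
  have h1 : conic formγ X = X 0 ^ 2 + X 1 ^ 2 - X 2 ^ 2 := by
    simp only [conic, formγ, Matrix.mulVec, dotProduct, Fin.sum_univ_three,
      Matrix.of_apply, Matrix.cons_val', Matrix.cons_val_zero, Matrix.cons_val_one,
      Matrix.cons_val, Matrix.cons_val_fin_one]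
    ring
  rw [h1] at h
  obtain ⟨z, hz⟩ : ∃ z : ℂ, z = ⟨X 0, X 1⟩ := ⟨_, rfl⟩
  have hr : ‖z‖ ^ 2 = X 0 ^ 2 + X 1 ^ 2 := by
    rw [Complex.sq_norm, Complex.normSq_apply, hz]
    ring
  have hc := Complex.norm_mul_cos_arg z
  have hs := Complex.norm_mul_sin_arg z
  have hr0 : 0 < ‖z‖ := by
    by_contra hn
    have h0 : ‖z‖ = 0 := le_antisymm (not_lt.1 hn) (norm_nonneg _)
    rw [h0] at hr
    have e0 : X 0 = 0 := by nlinarith [sq_nonneg (X 0), sq_nonneg (X 1)]
    have e1 : X 1 = 0 := by nlinarith [sq_nonneg (X 0), sq_nonneg (X 1)]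
    have e2 : X 2 = 0 := by
      rw [e0, e1] at h
      nlinarith [sq_nonneg (X 2)]
    apply hX
    ext i
    fin_cases i <;> simp [e0, e1, e2]
  have hle : |X 2| ≤ ‖z‖ := abs_le_of_sq_le_sq (by linarith) hr0.le
  have h2 := abs_le.1 hle
  have hcos : cos (arccos (X 2 / ‖z‖)) = X 2 / ‖z‖ :=
    cos_arccos (by rw [le_div_iff₀ hr0]; linarith) (by rw [div_le_iff₀ hr0]; linarith)
  set θ := z.arg + arccos (X 2 / ‖z‖) with hθ
  have e0 : X 0 = ‖z‖ * cos z.arg := by rw [hc, hz]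
  have e1 : X 1 = ‖z‖ * sin z.arg := by rw [hs, hz]
  have key : X 0 * cos θ + X 1 * sin θ = X 2 := by
    have h3 : ‖z‖ * cos (θ - z.arg) = X 2 := by
      rw [hθ, add_sub_cancel_left, hcos]
      field_simp
    rw [cos_sub] at h3
    rw [e0, e1]
    linarith
  have h4 := sin_sq_add_cos_sq θ
  refine ⟨θ, -X 0 * sin θ + X 1 * cos θ, ?_⟩
  ext i
  fin_cases i
  · simp only [circ, circ', Fin.zero_eta, Pi.add_apply, Pi.smul_apply, Matrix.cons_val_zero,
      smul_eq_mul]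
    rw [← key]
    linear_combination (-X 0) * h4
  · simp only [circ, circ', Fin.mk_one, Pi.add_apply, Pi.smul_apply, Matrix.cons_val_one,
      Matrix.cons_val_zero, smul_eq_mul]
    rw [← key]
    linear_combination (-X 1) * h4
  · simp [circ, circ']

theorem exists_circle {X : Fin 3 → ℝ} (hX : X ≠ 0) (h : conic formγ X = 0) :
    ∃ θ : ℝ, X = X 2 • circ θ ∧ X 2 ≠ 0 := by
  obtain ⟨θ, q, hq⟩ := exists_tangent hX h.ge
  have h1 := formγ_line (X 2) q θ
  rw [← hq, h] at h1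
  have h2 : q = 0 := pow_eq_zero_iff two_ne_zero |>.1 h1.symm
  rw [h2, zero_smul, add_zero] at hq
  refine ⟨θ, hq, fun h3 => hX ?_⟩
  rw [hq, h3, zero_smul]

theorem quad_root {a b c : ℝ} (ha : a ≠ 0) (h : 0 ≤ b ^ 2 - a * c) :
    a * ((-b - √(b ^ 2 - a * c)) / a) ^ 2 + 2 * b * ((-b - √(b ^ 2 - a * c)) / a) + c = 0 := by
  have h1 := sq_sqrt h
  field_simp
  linear_combination h1

theorem conic_add (B : Matrix (Fin 3) (Fin 3) ℝ) (hB : B.IsSymm) (X V : Fin 3 → ℝ) (t : ℝ) :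
    conic B (X + t • V) = conic B X + 2 * t * dotProduct X (B.mulVec V) + t ^ 2 * conic B V := by
  have h01 : B 1 0 = B 0 1 := hB.apply 0 1
  have h02 : B 2 0 = B 0 2 := hB.apply 0 2
  have h12 : B 2 1 = B 1 2 := hB.apply 1 2
  simp only [conic, Matrix.mulVec, dotProduct, Fin.sum_univ_three, Pi.add_apply, Pi.smul_apply,
    smul_eq_mul]
  rw [h01, h02, h12]
  ring

end Pool.Agent.R279.PC
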