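import Pool.Agent.R279.PC.Cot

/-!
# One leaf
-/

namespace Pool.Agent.R279.PC

open Real Set MeasureTheory Filter Topology

/-- A leaf: `φ x` is the second tangency point of the leaf point on the tangent line at `x`. -/
structure Leaf (H : ℕ → ℝ → ℝ) (φ φ' : ℝ → ℝ) : Prop where
  der : ∀ x, HasDerivAt φ (φ' x) x
  cont : Continuous φ'
  pos : ∀ x, 0 < φ' x
  per : ∀ x, φ (x + 2 * π) = φ x + 2 * π
  sin_ne : ∀ x, sin ((φ x - x) / 2) ≠ 0
  H_pos : ∀ x, 0 < H 0 x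
  el : ∀ x, ct (φ (φ x) - φ x) - ct (φ x - x) = -(H 1 (φ x) / H 0 (φ x))

/-- The coboundary function. -/
noncomputable def F1 (H : ℕ → ℝ → ℝ) (φ φ' : ℝ → ℝ) (x : ℝ) : ℝ :=
  am (φ x - x) * psi H x (φ x) ^ 2 * (1 - φ' x) + bx H x (ct (φ x - x))

variable {H : ℕ → ℝ → ℝ} {φ φ' : ℝ → ℝ}

theorem Leaf.contφ (L : Leaf H φ φ') : Continuous φ :=
  continuous_iff_continuousAt.2 fun x => (L.der x).continuousAt

theorem Leaf.riccati (hH : Jet H) (L : Leaf H φ φ') (x : ℝ) :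
    am (φ (φ x) - φ x) * (1 - φ' (φ x)) + am (φ x - x) * (1 - 1 / φ' x)
      = -((H 2 (φ x) * H 0 (φ x) - H 1 (φ x) ^ 2) / H 0 (φ x) ^ 2) := by
  have hy := L.der x
  have hz : HasDerivAt (fun x => φ (φ x)) (φ' (φ x) * φ' x) x := (L.der (φ x)).comp x hy
  have h1 := (der_ct hy hz (L.sin_ne (φ x))).sub (der_ct (hasDerivAt_id x) hy (L.sin_ne x))
  have h0 := (L.H_pos (φ x)).ne'
  have h2 := ((der_H hH 1 hy).div (der_H hH 0 hy) h0).neg
  have h3 : (fun x => ct (φ (φ x) - φ x)) - (fun x => ct (φ x - id x))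
      = -((fun t => H 1 (φ t)) / fun t => H 0 (φ t)) := by
    funext t
    exact L.el t
  rw [h3] at h1
  have h4 := h1.unique h2
  have h5 := (L.pos x).ne'
  simp only [id, zero_add, Nat.reduceAdd] at h4
  field_simp
  field_simp at h4
  linear_combination h4

/-- The field is continued by the map. -/
theorem Leaf.psi_next (L : Leaf H φ φ') (x : ℝ) :
    psi H (φ x) (φ (φ x)) = psp H x (φ x) := by
  have h0 := (L.H_pos (φ x)).ne'
  have h1 := L.el x
  have h2 : ct (φ (φ x) - φ x) = ct (φ x - x) - H 1 (φ x) / H 0 (φ x) := by linarith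
  unfold psi psp
  rw [h2]
  field_simp
  ring

theorem Leaf.cobound (hH : Jet H) (L : Leaf H φ φ') (x : ℝ) :
    am (φ x - x) * psp H x (φ x) ^ 2 * (1 - 1 / φ' x) + bx H (φ x) (-ct (φ x - x))
      = -F1 H φ φ' (φ x) := by
  have h0 := (L.H_pos (φ x)).ne'
  have h1 := L.el x
  have h2 : ct (φ (φ x) - φ x) = ct (φ x - x) - H 1 (φ x) / H 0 (φ x) := by linarith
  have h3 := L.riccati hH x
  unfold F1
  rw [L.psi_next x]
  have h4 : bx H (φ x) (ct (φ (φ x) - φ x)) + bx H (φ x) (-ct (φ x - x))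
      = psp H x (φ x) ^ 2 * ((H 2 (φ x) * H 0 (φ x) - H 1 (φ x) ^ 2) / H 0 (φ x) ^ 2) := by
    rw [h2]
    unfold bx psp
    field_simp
    ring
  linear_combination psp H x (φ x) ^ 2 * h3 + h4

theorem Leaf.hopf (hH : Jet H) (L : Leaf H φ φ') (x : ℝ) :
    am (φ x - x) * (psi H x (φ x) - psp H x (φ x)) ^ 2 + bx H x (ct (φ x - x))
      + bx H (φ x) (-ct (φ x - x))
      = am (φ x - x) * (psi H x (φ x) * φ' x - psp H x (φ x)) ^ 2 / φ' x
        + F1 H φ φ' x - F1 H φ φ' (φ x) := by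
  have h1 := L.cobound hH x
  have h5 := (L.pos x).ne'
  have h6 : F1 H φ φ' x
    = am (φ x - x) * psi H x (φ x) ^ 2 * (1 - φ' x) + bx H x (ct (φ x - x)) := rfl
  have h7 : am (φ x - x) * (psi H x (φ x) * φ' x - psp H x (φ x)) ^ 2 / φ' x
    = am (φ x - x) * (psi H x (φ x) ^ 2 * φ' x - 2 * psi H x (φ x) * psp H x (φ x)
      + psp H x (φ x) ^ 2 * (1 / φ' x)) := by
    field_simp
    ring
  rw [h7]
  linear_combination h1 - h6

/-- Substitution on a period. -/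
theorem integral_comp_leaf (L : Leaf H φ φ') {F : ℝ → ℝ} (hF : Continuous F)
    (hp : ∀ x, F (x + 2 * π) = F x) :
    ∫ x in (0 : ℝ)..2 * π, F (φ x) * φ' x = ∫ x in (0 : ℝ)..2 * π, F x := by
  have h1 := intervalIntegral.integral_comp_mul_deriv (a := 0) (b := 2 * π) (f := φ) (f' := φ')
    (g := F) (fun x _ => L.der x) L.cont.continuousOn hF
  have h2 : φ (2 * π) = φ 0 + 2 * π := by simpa using L.per 0
  have h3 : Function.Periodic F (2 * π) := hp
  have h4 := h3.intervalIntegral_add_eq (φ 0) 0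
  rw [h2, h4, zero_add] at h1
  exact h1

/-- Invariance of a density. -/
theorem integral_invariant (L : Leaf H φ φ') {ρ F : ℝ → ℝ} (hF : Continuous F)
    (hρ : Continuous ρ) (hFp : ∀ x, F (x + 2 * π) = F x) (hρp : ∀ x, ρ (x + 2 * π) = ρ x)
    (hinv : ∀ x, ρ (φ x) * φ' x = ρ x) :
    ∫ x in (0 : ℝ)..2 * π, ρ x * F (φ x) = ∫ x in (0 : ℝ)..2 * π, ρ x * F x := by
  rw [← integral_comp_leaf L (F := fun x => ρ x * F x) (hρ.mul hF)
    (fun x => by rw [hFp, hρp])]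
  congr 1
  funext x
  rw [← hinv x]
  ring

end Pool.Agent.R279.PC
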