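import Pool.Agent.R279.PC.Taylor

/-!
# The flux tends to zero at the curve, and the conclusion
-/

namespace Pool.Agent.R279.PC

open Real Set MeasureTheory Filter Topology

variable {H : ℕ → ℝ → ℝ} {Φ P Q R : ℝ → ℝ → ℝ}

theorem flx_bound (F : Fam H Φ P Q R) {m M : ℝ} (hm : 0 < m) (hM : 0 < M)
    (hb : ∀ c ∈ Ioc (0 : ℝ) 1, ∀ x, m * c ≤ Φ c x - x ∧ Φ c x - x ≤ M * c ∧ |P c x - 1| ≤ M * c) :
    ∃ K, ∀ c ∈ Ioc (0 : ℝ) 1, M * c ≤ π → ∀ x, |flx H Φ P c x| ≤ K * c := by
  obtain ⟨K, hK0, hK⟩ := m0_bound F.jet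
  obtain ⟨B, hB0, hB⟩ := F.jet.bound 2
  set D := (B + B * M / m) * π + (B + B * (1 + M)) / 2 with hD
  have hD0 : 0 < D := by positivity
  refine ⟨1 / 2 * (K * π ^ 4 / 24 * M) * D, fun c hc hcπ x => ?_⟩
  obtain ⟨b1, b2, b3⟩ := hb c hc x
  obtain ⟨u, hu⟩ : ∃ u, u = Φ c x - x := ⟨_, rfl⟩
  have hy : Φ c x = x + u := by linarith
  rw [← hu] at b1 b2
  have hc0 := hc.1
  have hu0 : 0 < u := lt_of_lt_of_le (by positivity) b1
  have hsin : u / π ≤ sin (u / 2) := by
    have := mul_le_sin (x := u / 2) (by linarith) (by linarith)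
    calc u / π = 2 / π * (u / 2) := by ring
      _ ≤ _ := this
  have hs0 : 0 < sin (u / 2) := lt_of_lt_of_le (by positivity) hsin
  have e1 : |nn H x (x + u) * am u| ≤ K * π ^ 4 / 24 * M * c := by
    rw [nn_eq x u hs0.ne', abs_div, abs_of_pos (by positivity : 0 < 24 * sin (u / 2) ^ 4)]
    rw [div_le_iff₀ (by positivity)]
    have h1 := hK x u hu0.le
    have h2 : (u / π) ^ 4 ≤ sin (u / 2) ^ 4 := pow_le_pow_left₀ (by positivity) hsin 4
    calc |m0 H x u| ≤ K * u ^ 5 := h1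
      _ = K * π ^ 4 / 24 * u * (24 * (u / π) ^ 4) := by
        field_simp
      _ ≤ K * π ^ 4 / 24 * (M * c) * (24 * sin (u / 2) ^ 4) := by gcongr
      _ = _ := by ring
  have e2 : |psp H x (x + u) - psi H x (x + u) * P c x| ≤ D := by
    have h1 : psp H x (x + u) - psi H x (x + u) * P c x
      = ((H 0 (x + u) - H 0 x) + H 0 x * (1 - P c x)) * ct u
        - (H 1 (x + u) + H 1 x * P c x) / 2 := by
      unfold psp psi
      rw [show x + u - x = u by ring]
      ring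
    have h2 : |H 0 (x + u) - H 0 x| ≤ B * u := by
      have := (convex_univ : Convex ℝ (univ : Set ℝ)).norm_image_sub_le_of_norm_hasDerivWithin_le
        (f := H 0) (f' := H 1) (C := B) (fun t _ => (F.jet.der 0 t).hasDerivWithinAt)
        (fun t _ => hB 1 (by norm_num) t) (mem_univ x) (mem_univ (x + u))
      rw [norm_eq_abs, norm_eq_abs, add_sub_cancel_left, abs_of_pos hu0] at this
      exact this
    have h3 : |H 0 x * (1 - P c x)| ≤ B * M / m * u := by
      rw [abs_mul, abs_sub_comm]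
      calc |H 0 x| * |P c x - 1| ≤ B * (M * c) := by
            gcongr
            exact hB 0 (by norm_num) x
        _ = B * M / m * (m * c) := by field_simp
        _ ≤ B * M / m * u := by gcongr
    have h4 : |ct u| ≤ π / u := by
      unfold ct
      rw [abs_div, abs_of_pos hs0, div_le_div_iff₀ hs0 hu0]
      have := abs_cos_le_one (u / 2)
      have h5 : u ≤ π * sin (u / 2) := by
        rw [div_le_iff₀ pi_pos] at hsin
        linarith
      nlinarith
    have h5 : |(H 0 (x + u) - H 0 x) + H 0 x * (1 - P c x)| ≤ (B + B * M / m) * u := by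
      refine (abs_add_le _ _).trans ?_
      linarith
    have h6 : |((H 0 (x + u) - H 0 x) + H 0 x * (1 - P c x)) * ct u| ≤ (B + B * M / m) * π := by
      rw [abs_mul]
      calc _ ≤ ((B + B * M / m) * u) * (π / u) := by gcongr
        _ = _ := by field_simp
    have h7 : |P c x| ≤ 1 + M := by
      have h8 : |P c x| ≤ |P c x - 1| + |(1 : ℝ)| := by
        have := abs_add_le (P c x - 1) 1
        simpa using this
      rw [abs_one] at h8
      have : M * c ≤ M := mul_le_of_le_one_right hM.le hc.2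
      linarith
    have h8 : |(H 1 (x + u) + H 1 x * P c x) / 2| ≤ (B + B * (1 + M)) / 2 := by
      rw [abs_div, abs_of_pos (two_pos : (0 : ℝ) < 2)]
      have h9 : |H 1 x * P c x| ≤ B * (1 + M) := by
        rw [abs_mul]
        gcongr
        exact hB 1 (by norm_num) x
      have h10 := hB 1 (by norm_num) (x + u)
      have h11 := abs_add_le (H 1 (x + u)) (H 1 x * P c x)
      linarith
    rw [h1]
    exact (abs_sub _ _).trans (add_le_add h6 h8)
  unfold flx
  rw [← hu, hy, abs_mul, abs_mul, abs_of_pos (by norm_num : (0 : ℝ) < 1 / 2)]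
  calc 1 / 2 * |nn H x (x + u) * am u| * |psp H x (x + u) - psi H x (x + u) * P c x|
      ≤ 1 / 2 * (K * π ^ 4 / 24 * M * c) * D := by gcongr
    _ = _ := by ring

theorem limJ (F : Fam H Φ P Q R) {m M : ℝ} (hm : 0 < m) (hM : 0 < M)
    (hb : ∀ c ∈ Ioc (0 : ℝ) 1, ∀ x, m * c ≤ Φ c x - x ∧ Φ c x - x ≤ M * c ∧ |P c x - 1| ≤ M * c) :
    Tendsto (J H Φ P) (𝓝[>] 0) (𝓝 0) := by
  obtain ⟨K, hK⟩ := flx_bound F hm hM hb
  have h1 : ∀ᶠ c in 𝓝[>] (0 : ℝ), |J H Φ P c| ≤ K * c * (2 * π) := by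
    have hpos : 0 < min 1 (π / M) := lt_min one_pos (by positivity)
    filter_upwards [Ioo_mem_nhdsGT hpos] with c hc
    have hc1 : c ∈ Ioc (0 : ℝ) 1 := ⟨hc.1, (hc.2.trans_le (min_le_left _ _)).le⟩
    have hc2 : M * c ≤ π := by
      have := (hc.2.trans_le (min_le_right _ _)).le
      rw [le_div_iff₀ hM] at this
      linarith
    have h2 := intervalIntegral.norm_integral_le_of_norm_le_const (a := 0) (b := 2 * π)
      (f := flx H Φ P c) (C := K * c) (fun x _ => hK c hc1 hc2 x)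
    rw [sub_zero, abs_of_pos two_pi_pos] at h2
    exact h2
  have h2 : Tendsto (fun c : ℝ => K * c * (2 * π)) (𝓝[>] 0) (𝓝 0) := by
    have : Continuous (fun c : ℝ => K * c * (2 * π)) := by fun_prop
    have h3 := this.tendsto 0
    simp only [mul_zero, zero_mul] at h3
    exact h3.mono_left nhdsWithin_le_nhds
  exact squeeze_zero_norm' h1 h2

/-- The main analytic conclusion. -/
theorem rigid (F : Fam H Φ P Q R) {m M : ℝ} (hm : 0 < m) (hM : 0 < M)
    (hb : ∀ c ∈ Ioc (0 : ℝ) 1, ∀ x, m * c ≤ Φ c x - x ∧ Φ c x - x ≤ M * c ∧ |P c x - 1| ≤ M * c)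
    (h3 : ∀ x, flx H Φ P 1 x ≤ 0) {c : ℝ} (hc : c ∈ Ioo (0 : ℝ) 1) (x : ℝ) :
    nn H x (Φ c x) = 0 ∧ psi H x (Φ c x) * P c x = psp H x (Φ c x) := by
  have hmem : ∀ {c : ℝ}, c ∈ Ioo (0 : ℝ) 1 → c ∈ Ioc (0 : ℝ) 1 := fun h => ⟨h.1, h.2.le⟩
  have h1m : (1 : ℝ) ∈ Ioc (0 : ℝ) 1 := ⟨one_pos, le_rfl⟩
  have hlim := limJ F hm hM hb
  have hJ1 : J H Φ P 1 ≤ 0 := by
    have h := intervalIntegral.integral_mono_on (μ := volume) (a := 0) (b := 2 * π) (by positivity)
      ((slice F.c_flx h1m).intervalIntegrable _ _) ((continuous_const (y := (0 : ℝ))).intervalIntegrable _ _)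
      (fun x _ => h3 x)
    rw [intervalIntegral.integral_zero] at h
    exact h
  have hJ0 : ∀ c ∈ Ioo (0 : ℝ) 1, J H Φ P c = 0 := by
    intro c hc
    apply le_antisymm
    · exact (F.monoJ (hmem hc) h1m hc.2.le).trans hJ1
    · refine le_of_tendsto hlim ?_
      filter_upwards [Ioo_mem_nhdsGT hc.1] with t ht
      exact F.monoJ ⟨ht.1, (ht.2.trans hc.2).le⟩ (hmem hc) ht.2.le
  have hint : ∫ x in (0 : ℝ)..2 * π, pst H Φ P Q c x = 0 := by
    have h1 : J H Φ P =ᶠ[𝓝 c] fun _ => 0 := by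
      filter_upwards [Ioo_mem_nhds hc.1 hc.2] with t ht using hJ0 t ht
    exact ((F.dJ hc).congr_of_eventuallyEq h1.symm).unique (hasDerivAt_const c 0)
  have hz : ∀ x ∈ Icc (0 : ℝ) (2 * π), pst H Φ P Q c x = 0 := by
    intro y hy
    by_contra hne
    have h2 : 0 < pst H Φ P Q c y := lt_of_le_of_ne (F.pst_nonneg (hmem hc) y) (Ne.symm hne)
    have h4 := intervalIntegral.integral_pos (a := 0) (b := 2 * π) two_pi_pos
      (slice F.c_pst (hmem hc)).continuousOn (fun t _ => F.pst_nonneg (hmem hc) t) ⟨y, hy, h2⟩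
    exact absurd hint h4.ne'
  have L := F.leaf c (hmem hc)
  have hkey : ∀ y ∈ Icc (0 : ℝ) (2 * π), nn H y (Φ c y) = 0 ∧
      psi H y (Φ c y) * P c y - psp H y (Φ c y) = 0 := by
    intro y hy
    have h2 := hz y hy
    have p1 := L.pos y
    have p2 := am_pos (L.sin_ne y)
    have p3 := F.Qpos c (hmem hc) y
    unfold pst rho at h2
    have h4 := (mul_eq_zero.1 h2).resolve_left (by positivity)
    have h5 : 0 ≤ am (Φ c y - y) * (psi H y (Φ c y) * P c y - psp H y (Φ c y)) ^ 2 / P c y := by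
      positivity
    have h6 : 0 ≤ 3 / 4 * nn H y (Φ c y) ^ 2 := by positivity
    have h7 : nn H y (Φ c y) ^ 2 = 0 := by linarith
    have h8 : am (Φ c y - y) * (psi H y (Φ c y) * P c y - psp H y (Φ c y)) ^ 2 / P c y = 0 := by
      linarith
    refine ⟨pow_eq_zero_iff two_ne_zero |>.1 h7, ?_⟩
    rw [div_eq_zero_iff] at h8
    have h9 := (mul_eq_zero.1 (h8.resolve_right p1.ne')).resolve_left p2.ne'
    exact pow_eq_zero_iff two_ne_zero |>.1 h9
  have hp1 : Function.Periodic (fun x => nn H x (Φ c x)) (2 * π) := fun x => F.per_nn (hmem hc) x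
  have hp2 : Function.Periodic (fun x => psi H x (Φ c x) * P c x - psp H x (Φ c x)) (2 * π) := by
    intro x
    simp only [F.per_psi (hmem hc), F.per_psp (hmem hc), F.per_P (hmem hc)]
  constructor
  · obtain ⟨y, hy, hxy⟩ := hp1.exists_mem_Ico₀ two_pi_pos x
    have := (hkey y ⟨hy.1, hy.2.le⟩).1
    exact hxy.trans this
  · obtain ⟨y, hy, hxy⟩ := hp2.exists_mem_Ico₀ two_pi_pos x
    have := (hkey y ⟨hy.1, hy.2.le⟩).2
    exact sub_eq_zero.1 (hxy.trans this)

end Pool.Agent.R279.PC
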