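import Pool.Agent.R279.PC.Flux

/-!
# The leaf of circumscribed triangles
-/

namespace Pool.Agent.R279.PC

open Real Set MeasureTheory Filter Topology

variable {H : ℕ → ℝ → ℝ} {φ φ' : ℝ → ℝ}

theorem ct_add_pos {a b : ℝ} (ha : 0 < a) (hb : 0 < b) (hab : a + b < 2 * π) :
    0 < ct a + ct b := by
  have h1 : 0 < sin (a / 2) := sin_pos_of_pos_of_lt_pi (by linarith) (by linarith)
  have h2 : 0 < sin (b / 2) := sin_pos_of_pos_of_lt_pi (by linarith) (by linarith)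
  have h3 : 0 < sin (a / 2 + b / 2) := sin_pos_of_pos_of_lt_pi (by linarith) (by linarith)
  have h4 : ct a + ct b = sin (a / 2 + b / 2) / (sin (a / 2) * sin (b / 2)) := by
    unfold ct
    rw [sin_add]
    field_simp
    ring
  rw [h4]
  positivity

theorem ct_tri {a b c : ℝ} (ha : sin (a / 2) ≠ 0) (hb : sin (b / 2) ≠ 0) (hc : sin (c / 2) ≠ 0)
    (h : a + b + c = 2 * π) : ct a * ct b + ct b * ct c + ct c * ct a = 1 := by
  have h1 : c / 2 = π - (a / 2 + b / 2) := by linarith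
  have h2 : sin (c / 2) = sin (a / 2) * cos (b / 2) + cos (a / 2) * sin (b / 2) := by
    rw [h1, sin_pi_sub, sin_add]
  have h3 : cos (c / 2) = sin (a / 2) * sin (b / 2) - cos (a / 2) * cos (b / 2) := by
    rw [h1, cos_pi_sub, cos_add]
    ring
  have h4 : ct a * ct b + ct b * ct c + ct c * ct a - 1
      = (cos (a / 2) * cos (b / 2) * sin (c / 2) + cos (b / 2) * cos (c / 2) * sin (a / 2)
        + cos (c / 2) * cos (a / 2) * sin (b / 2) - sin (a / 2) * sin (b / 2) * sin (c / 2))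
        / (sin (a / 2) * sin (b / 2) * sin (c / 2)) := by
    unfold ct
    field_simp
  have h5 : cos (a / 2) * cos (b / 2) * sin (c / 2) + cos (b / 2) * cos (c / 2) * sin (a / 2)
        + cos (c / 2) * cos (a / 2) * sin (b / 2) - sin (a / 2) * sin (b / 2) * sin (c / 2) = 0 := by
    rw [h2, h3]
    ring
  rw [h5, zero_div] at h4
  linarith

theorem ct_per (u : ℝ) : ct (u + 2 * π) = ct u := by
  unfold ct
  have h : (u + 2 * π) / 2 = u / 2 + π := by ring
  rw [h, sin_add_pi, cos_add_pi, neg_div_neg_eq]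

theorem tri_alg {h1 h2 C1 C2 C3 p1 p2 : ℝ} (e : C1 * C2 + C2 * C3 + C3 * C1 = 1)
    (hp1 : 0 < p1) (hp2 : 0 < p2) (h12 : 0 < C1 + C2) (h23 : 0 < C2 + C3) (h13 : 0 < C1 + C3)
    {u1 u2 v1 v2 : ℝ} (hu1 : u1 = h1 * (C3 - C1)) (hu2 : u2 = h2 * (C1 - C2))
    (hv1 : v1 = h1 * ((1 + C1 ^ 2) / 2 * (p1 - 1) + (1 + C3 ^ 2) / 2 * (p1 * p2 - 1)
      + (C3 - C1) ^ 2))
    (hv2 : v2 = h2 * ((1 + C2 ^ 2) / 2 * (p2 - 1) + (1 + C1 ^ 2) / 2 * (1 / p1 - 1)
      + (C1 - C2) ^ 2)) :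
    1 / 2 * (((h1 - h2) * C1 ^ 2 + (u1 + u2) * C1 + ((h1 + v1) / 3 - (h2 + v2) / 3))
      * ((1 + C1 ^ 2) / 2)) * ((h2 * C1 - u2 / 2) - (h1 * C1 + u1 / 2) * p1) ≤ 0 := by
  set E1 := (C1 + C3) / 2 with hE1
  set E2 := (C1 + C2) / 2 with hE2
  set E3 := (C2 + C3) / 2 with hE3
  have a1 : (1 + C1 ^ 2) / 2 = 2 * E1 * E2 := by
    rw [hE1, hE2]
    linear_combination (-1 / 2 : ℝ) * e
  have a2 : (1 + C2 ^ 2) / 2 = 2 * E2 * E3 := by
    rw [hE3, hE2]
    linear_combination (-1 / 2 : ℝ) * e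
  have a3 : (1 + C3 ^ 2) / 2 = 2 * E1 * E3 := by
    rw [hE3, hE1]
    linear_combination (-1 / 2 : ℝ) * e
  have k1 : (h1 - h2) * C1 ^ 2 + (u1 + u2) * C1 + ((h1 + v1) / 3 - (h2 + v2) / 3)
      = 2 / 3 * (E1 + E2 * p1 + E3 * (p1 * p2)) * (h1 * E1 - h2 * E2 / p1) := by
    rw [hu1, hu2, hv1, hv2, a1, a2, a3, hE1, hE2, hE3]
    field_simp
    linear_combination (-2 * (h1 - h2) * p1 : ℝ) * e
  have k2 : h2 * C1 - u2 / 2 = h2 * E2 := by
    rw [hu2, hE2]
    ring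
  have k3 : h1 * C1 + u1 / 2 = h1 * E1 := by
    rw [hu1, hE1]
    ring
  rw [k1, k2, k3, a1]
  have hE1' : 0 < E1 := by positivity
  have hE2' : 0 < E2 := by positivity
  have hE3' : 0 < E3 := by positivity
  have k4 : 1 / 2 * (2 / 3 * (E1 + E2 * p1 + E3 * (p1 * p2)) * (h1 * E1 - h2 * E2 / p1)
      * (2 * E1 * E2)) * (h2 * E2 - h1 * E1 * p1)
      = -(1 / 3 * (E1 + E2 * p1 + E3 * (p1 * p2)) * (2 * E1 * E2) * p1
        * (h1 * E1 - h2 * E2 / p1) ^ 2) := by
    field_simp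
    ring
  rw [k4]
  have k5 : 0 ≤ 1 / 3 * (E1 + E2 * p1 + E3 * (p1 * p2)) * (2 * E1 * E2) * p1
        * (h1 * E1 - h2 * E2 / p1) ^ 2 := by positivity
  linarith

theorem Leaf.per' (L : Leaf H φ φ') (x : ℝ) : φ' (x + 2 * π) = φ' x := by
  have h1 : HasDerivAt (fun x => φ (x + 2 * π)) (φ' (x + 2 * π)) x :=
    (L.der (x + 2 * π)).comp_add_const x (2 * π)
  have h2 : (fun x => φ (x + 2 * π)) = fun x => φ x + 2 * π := funext L.per
  rw [h2] at h1
  exact h1.unique ((L.der x).add_const _)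

/-- On the leaf of circumscribed triangles the flux integrand is not positive. -/
theorem tri_flx (hH : Jet H) (L : Leaf H φ φ') (h3 : ∀ x, φ (φ (φ x)) = x + 2 * π)
    (hgt : ∀ x, x < φ x) (x : ℝ) :
    1 / 2 * (nn H x (φ x) * am (φ x - x)) * (psp H x (φ x) - psi H x (φ x) * φ' x) ≤ 0 := by
  have e3 := h3 x
  have g1 := hgt x
  have g2 := hgt (φ x)
  have g3 := hgt (φ (φ x))
  have s1 := L.sin_ne x
  have s2 := L.sin_ne (φ x)
  have s3 := L.sin_ne (φ (φ x))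
  have r1 := L.riccati hH x
  have r3 := L.riccati hH (φ (φ x))
  have l1 := L.el x
  have l3 := L.el (φ (φ x))
  have H0 := (L.H_pos x).ne'
  have H0' := (L.H_pos (φ x)).ne'
  have p1 := L.pos x
  have p2 := L.pos (φ x)
  have hp3 : φ' (φ (φ x)) * (φ' (φ x) * φ' x) = 1 := by
    have d1 : HasDerivAt (fun x => φ (φ (φ x))) (φ' (φ (φ x)) * (φ' (φ x) * φ' x)) x :=
      (L.der (φ (φ x))).comp x ((L.der (φ x)).comp x (L.der x))
    have d2 : (fun x => φ (φ (φ x))) = fun x => x + 2 * π := funext h3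
    rw [d2] at d1
    exact d1.unique ((hasDerivAt_id x).add_const _)
  rw [e3] at r3 l3 g3 s3
  rw [L.per, L.per'] at r3
  rw [L.per] at l3
  rw [hH.per, hH.per] at l3
  rw [hH.per, hH.per, hH.per] at r3
  have q1 : φ x + 2 * π - (x + 2 * π) = φ x - x := by ring
  rw [q1] at r3 l3
  have q3 : φ' (φ (φ x)) = 1 / (φ' x * φ' (φ x)) := by
    field_simp
    linear_combination hp3
  have tri := ct_tri s1 s2 s3 (by ring)
  have c12 := ct_add_pos (a := φ x - x) (b := φ (φ x) - φ x) (by linarith) (by linarith)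
    (by linarith)
  have c23 := ct_add_pos (a := φ (φ x) - φ x) (b := x + 2 * π - φ (φ x)) (by linarith)
    (by linarith) (by linarith)
  have c13 := ct_add_pos (a := φ x - x) (b := x + 2 * π - φ (φ x)) (by linarith)
    (by linarith) (by linarith)
  have u1 : H 1 x = H 0 x * (ct (x + 2 * π - φ (φ x)) - ct (φ x - x)) := by
    field_simp at l3
    linear_combination l3
  have u2 : H 1 (φ x) = H 0 (φ x) * (ct (φ x - x) - ct (φ (φ x) - φ x)) := by
    field_simp at l1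
    linear_combination l1
  rw [am_eq s1] at r1 r3
  rw [am_eq s2] at r1
  rw [am_eq s3, q3] at r3
  rw [am_eq s1]
  refine tri_alg (h1 := H 0 x) (h2 := H 0 (φ x)) (C1 := ct (φ x - x))
    (C2 := ct (φ (φ x) - φ x)) (C3 := ct (x + 2 * π - φ (φ x))) tri p1 p2 c12 c23 c13
    (u1 := H 1 x) (u2 := H 1 (φ x)) (v1 := H 2 x) (v2 := H 2 (φ x)) u1 u2 ?_ ?_
  · rw [u1] at r3
    field_simp at r3 ⊢
    linear_combination r3
  · rw [u2] at r1
    field_simp at r1 ⊢
    linear_combination r1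

theorem quad_alg {h1 h2 C K p : ℝ} (e : C * K = 1) (hC : 0 < C) (hK : 0 < K)
    (hp : 0 < p) {u1 u2 v1 v2 : ℝ} (hu1 : u1 = h1 * (K - C)) (hu2 : u2 = h2 * (C - K))
    (hv1 : v1 = h1 * ((1 + C ^ 2) / 2 * (p - 1) + (1 + K ^ 2) / 2 * (p - 1) + (K - C) ^ 2))
    (hv2 : v2 = h2 * ((1 + K ^ 2) / 2 * (1 / p - 1) + (1 + C ^ 2) / 2 * (1 / p - 1)
      + (C - K) ^ 2)) :
    1 / 2 * (((h1 - h2) * C ^ 2 + (u1 + u2) * C + ((h1 + v1) / 3 - (h2 + v2) / 3))
      * ((1 + C ^ 2) / 2)) * ((h2 * C - u2 / 2) - (h1 * C + u1 / 2) * p) ≤ 0 := by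
  set E := (C + K) / 2 with hE
  have a1 : (1 + C ^ 2) / 2 = C * E := by
    rw [hE]
    linear_combination (-1 / 2 : ℝ) * e
  have a2 : (1 + K ^ 2) / 2 = K * E := by
    rw [hE]
    linear_combination (-1 / 2 : ℝ) * e
  have k1 : (h1 - h2) * C ^ 2 + (u1 + u2) * C + ((h1 + v1) / 3 - (h2 + v2) / 3)
      = 2 / 3 * E ^ 2 * (1 + p) * (h1 - h2 / p) := by
    rw [hu1, hu2, hv1, hv2, a1, a2, hE]
    field_simp
    linear_combination (-2 * (h1 - h2) * p : ℝ) * e
  have k2 : h2 * C - u2 / 2 = h2 * E := by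
    rw [hu2, hE]
    ring
  have k3 : h1 * C + u1 / 2 = h1 * E := by
    rw [hu1, hE]
    ring
  rw [k1, k2, k3, a1]
  have hE' : 0 < E := by positivity
  have k4 : 1 / 2 * (2 / 3 * E ^ 2 * (1 + p) * (h1 - h2 / p) * (C * E)) * (h2 * E - h1 * E * p)
      = -(1 / 3 * E ^ 4 * (1 + p) * C * p * (h1 - h2 / p) ^ 2) := by
    field_simp
    ring
  rw [k4]
  have k5 : 0 ≤ 1 / 3 * E ^ 4 * (1 + p) * C * p * (h1 - h2 / p) ^ 2 := by positivity
  linarith

/-- On the leaf of circumscribed parallelograms the flux integrand is not positive. -/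
theorem quad_flx (hH : Jet H) (L : Leaf H φ φ') (h2 : ∀ x, φ (φ x) = x + π)
    (hgt : ∀ x, x < φ x) (x : ℝ) :
    1 / 2 * (nn H x (φ x) * am (φ x - x)) * (psp H x (φ x) - psi H x (φ x) * φ' x) ≤ 0 := by
  have hper : ∀ x, φ (x + π) = φ x + π := fun x => by rw [← h2 x, h2 (φ x)]
  have hw : φ (φ x - π) = x := by
    have := hper (φ x - π)
    rw [sub_add_cancel, h2] at this
    linarith
  have g1 := hgt x
  have g2 := hgt (φ x)
  rw [h2] at g2
  have s1 := L.sin_ne x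
  have r1 := L.riccati hH x
  have r3 := L.riccati hH (φ x - π)
  have l1 := L.el x
  have l3 := L.el (φ x - π)
  have H0 := (L.H_pos x).ne'
  have H0' := (L.H_pos (φ x)).ne'
  have p1 := L.pos x
  have hpp : φ' (φ x) * φ' x = 1 := by
    have d1 : HasDerivAt (fun x => φ (φ x)) (φ' (φ x) * φ' x) x := (L.der (φ x)).comp x (L.der x)
    have d2 : (fun x => φ (φ x)) = fun x => x + π := funext h2
    rw [d2] at d1
    exact d1.unique ((hasDerivAt_id x).add_const _)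
  have hpp' : φ' (φ (φ x - π)) * φ' (φ x - π) = 1 := by
    have d1 : HasDerivAt (fun x => φ (φ x)) (φ' (φ (φ x - π)) * φ' (φ x - π)) (φ x - π) :=
      (L.der (φ (φ x - π))).comp _ (L.der _)
    have d2 : (fun x => φ (φ x)) = fun x => x + π := funext h2
    rw [d2] at d1
    exact d1.unique ((hasDerivAt_id _).add_const _)
  rw [hw] at r3 l3 hpp'
  rw [h2] at r1 l1
  have q2 : φ' (φ x) = 1 / φ' x := by
    field_simp
    linarith
  have q3 : φ' (φ x - π) = 1 / φ' x := by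
    field_simp
    linarith
  have hcos : 0 < cos ((φ x - x) / 2) := cos_pos_of_mem_Ioo ⟨by linarith, by linarith⟩
  have hsin : 0 < sin ((φ x - x) / 2) := sin_pos_of_pos_of_lt_pi (by linarith) (by linarith)
  have c1 : cos ((x + π - φ x) / 2) = sin ((φ x - x) / 2) := by
    rw [← cos_pi_div_two_sub]
    congr 1
    ring
  have c2 : sin ((x + π - φ x) / 2) = cos ((φ x - x) / 2) := by
    rw [← sin_pi_div_two_sub]
    congr 1
    ring
  have hC : 0 < ct (φ x - x) := by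
    unfold ct
    positivity
  have hK : 0 < ct (x + π - φ x) := by
    unfold ct
    rw [c1, c2]
    positivity
  have e : ct (φ x - x) * ct (x + π - φ x) = 1 := by
    unfold ct
    rw [c1, c2]
    field_simp
  have q4 : x - (φ x - π) = x + π - φ x := by ring
  rw [q4] at r3 l3
  have s2 : sin ((x + π - φ x) / 2) ≠ 0 := by
    rw [c2]
    exact hcos.ne'
  have u1 : H 1 x = H 0 x * (ct (x + π - φ x) - ct (φ x - x)) := by
    field_simp at l3
    linear_combination l3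
  have u2 : H 1 (φ x) = H 0 (φ x) * (ct (φ x - x) - ct (x + π - φ x)) := by
    field_simp at l1
    linear_combination l1
  rw [am_eq s1, am_eq s2] at r1 r3
  rw [q2] at r1
  rw [q3] at r3
  rw [am_eq s1]
  refine quad_alg (h1 := H 0 x) (h2 := H 0 (φ x)) (C := ct (φ x - x))
    (K := ct (x + π - φ x)) e hC hK p1
    (u1 := H 1 x) (u2 := H 1 (φ x)) (v1 := H 2 x) (v2 := H 2 (φ x)) u1 u2 ?_ ?_
  · rw [u1] at r3
    field_simp at r3 ⊢
    linear_combination r3
  · rw [u2] at r1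
    field_simp at r1 ⊢
    linear_combination r1

end Pool.Agent.R279.PC
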